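import Mathlib

set_option autoImplicit false

namespace Pool.Agent.P.MP_eb0bd2_lc

/-- `I` is an independent set of `D`: no arc has both ends in `I`. -/
def IsIndep {V : Type} (D : Digraph V) (I : Finset V) : Prop :=
  ∀ u ∈ I, ∀ v ∈ I, ¬ D.Adj u v

/-- `B` is an out-branching of `D` rooted at `s`: a spanning subdigraph whose underlying graph is
a tree, in which `s` has in-degree 0 and every other vertex has in-degree 1. -/
def IsOutBranching {V : Type} (D B : Digraph V) (s : V) : Prop :=
  (∀ u v, B.Adj u v → D.Adj u v) ∧ (SimpleGraph.fromRel B.Adj).IsTree ∧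
    (∀ u, ¬ B.Adj u s) ∧ ∀ v, v ≠ s → ∃! u, B.Adj u v

/-- `B` is an in-branching of `D` rooted at `t`: a spanning subdigraph whose underlying graph is
a tree, in which `t` has out-degree 0 and every other vertex has out-degree 1. -/
def IsInBranching {V : Type} (D B : Digraph V) (t : V) : Prop :=
  (∀ u v, B.Adj u v → D.Adj u v) ∧ (SimpleGraph.fromRel B.Adj).IsTree ∧
    (∀ v, ¬ B.Adj t v) ∧ ∀ u, u ≠ t → ∃! v, B.Adj u v

/-- `D` has an out-branching rooted at `s` and an in-branching rooted at `t` sharing no arc. -/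
def HasGoodPair {V : Type} (D : Digraph V) (s t : V) : Prop :=
  ∃ B₁ B₂ : Digraph V, IsOutBranching D B₁ s ∧ IsInBranching D B₂ t ∧
    ∀ u v, ¬ (B₁.Adj u v ∧ B₂.Adj u v)

/-- The adjacency matrix of a digraph on `Fin n`, as a list of rows. -/
def adjMatrix {n : ℕ} (D : Digraph (Fin n)) [DecidableRel D.Adj] : List (List Bool) :=
  List.ofFn fun u => List.ofFn fun v => decide (D.Adj u v)

end Pool.Agent.P.MP_eb0bd2_lc
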