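import Pool.Agent.Lib.PolyTime.Parse

set_option autoImplicit false

namespace Pool.Agent.P.MP_eb0bd2_lc

open Pool.Agent.Lib.PolyTime Relation

/-- All lists of length at most `B` over `l`. -/
def tuples {β : Type} : ℕ → List β → List (List β)
  | 0, _ => [[]]
  | B + 1, l => [] :: l.flatMap fun x => (tuples B l).map fun L => x :: L

theorem mem_tuples {β : Type} {B : ℕ} {l L : List β} :
    L ∈ tuples B l ↔ L.length ≤ B ∧ ∀ x ∈ L, x ∈ l := by
  induction B generalizing L with
  | zero => cases L <;> simp [tuples]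
  | succ B ih =>
    cases L with
    | nil => simp [tuples]
    | cons y L =>
      simp only [tuples, List.mem_cons, List.mem_flatMap, List.mem_map, ih, List.length_cons]
      constructor
      · rintro (h | ⟨x, hx, L', ⟨h1, h2⟩, h3⟩)
        · simp at h
        · obtain ⟨rfl, rfl⟩ := List.cons.inj h3
          exact ⟨by omega, by rintro z (rfl | hz); exacts [hx, h2 z hz]⟩
      · rintro ⟨h1, h2⟩
        exact Or.inr ⟨y, h2 y (Or.inl rfl), L, ⟨by omega, fun z hz => h2 z (Or.inr hz)⟩, rfl⟩

/-- The stages of an inductive definition inside `l`. -/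
def Stage {β : Type} (l : List β) (Q : (β → Prop) → β → Prop) : ℕ → β → Prop
  | 0, _ => False
  | σ + 1, x => x ∈ l ∧ Q (Stage l Q σ) x

section
variable {β : Type} {l : List β} {Q : (β → Prop) → β → Prop}

theorem Stage.succ (hQ : ∀ S S' x, (∀ u ∈ l, S u → S' u) → Q S x → Q S' x) {σ : ℕ} {x : β}
    (h : Stage l Q σ x) : Stage l Q (σ + 1) x := by
  induction σ generalizing x with
  | zero => exact h.elim
  | succ σ ih => exact ⟨h.1, hQ _ _ _ (fun u _ hu => ih hu) h.2⟩

theorem stage_closed (hQ : ∀ S S' x, (∀ u ∈ l, S u → S' u) → Q S x → Q S' x) :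
    ∀ x ∈ l, Q (Stage l Q l.length) x → Stage l Q l.length x := by
  classical
  have key : ∀ σ, σ ≤ (l.toFinset.filter (Stage l Q σ)).card ∨
      ∀ x, Stage l Q (σ + 1) x → Stage l Q σ x := by
    intro σ
    induction σ with
    | zero => exact Or.inl (Nat.zero_le _)
    | succ σ ih =>
      by_cases h : ∀ x, Stage l Q (σ + 1) x → Stage l Q σ x
      · exact Or.inr fun x hx => ⟨hx.1, hQ _ _ _ (fun u _ => h u) hx.2⟩
      · left
        push Not at h
        obtain ⟨x, h1, h2⟩ := h
        have h3 := ih.resolve_right fun h => h2 (h x h1)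
        refine lt_of_le_of_lt h3 (Finset.card_lt_card ⟨fun u hu => ?_, fun h => h2 ?_⟩)
        · exact Finset.mem_filter.2 ⟨(Finset.mem_filter.1 hu).1,
            (Finset.mem_filter.1 hu).2.succ hQ⟩
        · exact (Finset.mem_filter.1 (h (Finset.mem_filter.2 ⟨List.mem_toFinset.2 h1.1, h1⟩))).2
  intro x hx h
  rcases key l.length with a | a
  · have := Finset.eq_of_subset_of_card_le (Finset.filter_subset (Stage l Q l.length) l.toFinset)
      ((List.toFinset_card_le l).trans a)
    exact (Finset.mem_filter.1 (this ▸ List.mem_toFinset.2 hx :)).2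
  · exact a x ⟨hx, h⟩

theorem Stage.ind (hQ : ∀ S S' x, (∀ u ∈ l, S u → S' u) → Q S x → Q S' x) {S : β → Prop}
    (hS : ∀ x ∈ l, Q S x → S x) {σ : ℕ} {x : β} (h : Stage l Q σ x) : S x := by
  induction σ generalizing x with
  | zero => exact h.elim
  | succ σ ih => exact hS x h.1 (hQ _ _ _ (fun u _ hu => ih hu) h.2)

theorem stage_rank_iff (hQ : ∀ S S' x, (∀ u ∈ l, S u → S' u) → Q S x → Q S' x) :
    (∀ x ∈ l, Stage l Q l.length x) ↔ ∃ ρ : β → ℕ, ∀ x ∈ l, Q (fun u => ρ u < ρ x) x := by
  constructor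
  · intro h
    refine ⟨fun x => sInf {σ | Stage l Q σ x}, fun x hx => ?_⟩
    have h1 : Stage l Q (sInf {σ | Stage l Q σ x}) x :=
      Nat.sInf_mem (s := {σ | Stage l Q σ x}) ⟨_, h x hx⟩
    show Q (fun u => sInf {σ | Stage l Q σ u} < sInf {σ | Stage l Q σ x}) x
    generalize sInf {σ | Stage l Q σ x} = m at h1
    cases m with
    | zero => exact h1.elim
    | succ m => exact hQ _ _ _ (fun u _ hu => Nat.lt_succ_of_le (Nat.sInf_le hu)) h1.2
  · rintro ⟨ρ, h⟩
    suffices ∀ m, ∀ x ∈ l, ρ x = m → Stage l Q l.length x from fun x hx => this _ x hx rfl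
    intro m
    induction m using Nat.strong_induction_on with
    | _ m ih =>
      intro x hx e
      exact stage_closed hQ x hx (hQ _ _ _ (fun u hu a => ih _ (e ▸ a) u hu rfl) (h x hx))

end

variable {α β γ : Type} [N487b59b3 α] [N487b59b3 β] [N487b59b3 γ]

theorem sz_le_of_sublist {l l' : List β} (h : l.Sublist l') : sz l ≤ sz l' := by
  induction h with
  | slnil => exact le_rfl
  | cons a _ ih => simp; omega
  | cons_cons a _ ih => simp; omega

@[fun_prop] theorem pt_tuples (B : ℕ) {l : α → List β} (hl : PT l) :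
    PT fun a => tuples B (l a) := by
  induction B with
  | zero => exact PT.const _
  | succ B ih =>
    exact PT.cons (PT.const _) (PT.flatMap (f := fun a x => (tuples B (l a)).map fun L => x :: L) hl
      (PT.map (f := fun (p : α × β) L => p.2 :: L) (ih.comp (PT.fst PT.id)) (by fun_prop)))

theorem ptp_short (B : ℕ) {l : α → List β} {p : α → List β → Prop} (hl : PT l)
    (hp : PTP fun q : α × List β => p q.1 q.2) :
    PTP fun a => ∃ L : List β, (L.length ≤ B ∧ ∀ x ∈ L, x ∈ l a) ∧ p a L :=
  (PTP.exists_mem (pt_tuples B hl) hp).congr fun a => by simp only [mem_tuples]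

theorem ptp_iter {l s : α → List β} {n : α → ℕ} {Q : α → ℕ → (β → Prop) → β → Prop}
    {P : α → ℕ → β → Prop} (hl : PT l) (hs : PT s) (hn : PT n) (hn' : Small n)
    (hQ : PTP fun p : α × List β × ℕ × β => Q p.1 p.2.2.1 (· ∈ p.2.1) p.2.2.2)
    (h0 : ∀ a x, P a 0 x ↔ x ∈ s a) (hS : ∀ a σ x, P a (σ + 1) x ↔ x ∈ l a ∧ Q a σ (P a σ) x) :
    PTP fun p : α × β => P p.1 (n p.1) p.2 := by
  obtain ⟨b, hb, e⟩ := hQ
  let f : α → List β → ℕ → List β := fun a L σ => (l a).filter fun x => b (a, L, σ, x)
  have hf : PT fun a => (List.range (n a)).foldl (f a) (s a) := by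
    refine PT.foldl (PT.range hn hn') hs (PT.filter (f := fun (p : α × List β × ℕ) x =>
      b (p.1, p.2.1, p.2.2, x)) (by fun_prop) (by fun_prop)) ?_
    refine ((hs.size.reindex Prod.fst).add (hl.size.reindex Prod.fst)).mono fun p => ?_
    generalize (List.range (n p.1)).take p.2 = c
    induction c using List.reverseRecOn with
    | nil => simp
    | append_singleton c x _ =>
      rw [List.foldl_append]
      exact (sz_le_of_sublist List.filter_sublist).trans (Nat.le_add_left _ _)
  have key : ∀ a σ, (· ∈ (List.range σ).foldl (f a) (s a)) = P a σ := by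
    intro a σ
    induction σ with
    | zero => funext x; simp [h0]
    | succ σ ih =>
      funext x
      rw [List.range_succ, List.foldl_append, hS, ← ih]
      simp [f, e]
  exact (PTP.mem (hf.comp (PT.fst PT.id)) (PT.snd PT.id)).congr fun p => by rw [← key]

theorem ptp_stage {l : α → List β} {Q : α → (β → Prop) → β → Prop} (hl : PT l)
    (hQ : PTP fun p : α × List β × β => Q p.1 (· ∈ p.2.1) p.2.2) :
    PTP fun p : α × β => Stage (l p.1) (Q p.1) (l p.1).length p.2 :=
  ptp_iter (s := fun _ => []) (Q := fun a _ => Q a) (P := fun a => Stage (l a) (Q a)) hl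
    (PT.const _) hl.length (Small.length hl)
    (hQ.comp (g := fun p : α × List β × ℕ × β => (p.1, p.2.1, p.2.2.2)) (by fun_prop))
    (fun _ _ => by simp [Stage]) fun _ _ _ => Iff.rfl

theorem ptp_rank {l : α → List β} {Q : α → (β → Prop) → β → Prop} (hl : PT l)
    (hQ : PTP fun p : α × List β × β => Q p.1 (· ∈ p.2.1) p.2.2)
    (hm : ∀ a S S' x, (∀ u ∈ l a, S u → S' u) → Q a S x → Q a S' x) :
    PTP fun a => ∃ ρ : β → ℕ, ∀ x ∈ l a, Q a (fun u => ρ u < ρ x) x :=
  (PTP.forall_mem hl (ptp_stage hl hQ)).congr fun a => (stage_rank_iff (hm a)).symm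

theorem ptp_rtg {l : α → List β} {r : α → β → β → Prop} {x y : α → β} (hl : PT l) (hx : PT x)
    (hy : PT y) (hr : PTP fun p : α × β × β => r p.1 p.2.1 p.2.2)
    (hs : ∀ a u v, r a u v → v ∈ l a) : PTP fun a => ReflTransGen (r a) (x a) (y a) := by
  let Q : α → (β → Prop) → β → Prop := fun a S v => v = x a ∨ ∃ u ∈ x a :: l a, S u ∧ r a u v
  have hm : ∀ a S S' v, (∀ u ∈ x a :: l a, S u → S' u) → Q a S v → Q a S' v :=
    fun a S S' v h => Or.imp_right fun ⟨u, h1, h2, h3⟩ => ⟨u, h1, h u h1 h2, h3⟩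
  have hQ : PTP fun p : α × List β × β => Q p.1 (· ∈ p.2.1) p.2.2 :=
    PTP.or (by fun_prop) (PTP.exists_mem (p := fun (p : α × List β × β) u =>
      u ∈ p.2.1 ∧ r p.1 u p.2.2) (by fun_prop) (PTP.and (by fun_prop)
        (hr.comp (g := fun q : (α × List β × β) × β => (q.1.1, q.2, q.1.2.2)) (by fun_prop))))
  refine ((ptp_stage (hx.cons hl) hQ).comp (g := fun a => (a, y a)) (by fun_prop)).congr
    fun a => ⟨fun h => ?_, fun h => ?_⟩
  · have : y a ∈ x a :: l a ∧ Stage (x a :: l a) (Q a) (x a :: l a).length (y a) := by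
      generalize y a = v at h
      induction h with
      | refl => exact ⟨by simp, stage_closed (hm a) _ (by simp) (Or.inl rfl)⟩
      | tail _ h ih =>
        have := List.mem_cons_of_mem (x a) (hs a _ _ h)
        exact ⟨this, stage_closed (hm a) _ this (Or.inr ⟨_, ih.1, ih.2, h⟩)⟩
    exact this.2
  · refine Stage.ind (hm a) (S := ReflTransGen (r a) (x a)) ?_ h
    rintro v - (rfl | ⟨u, -, h1, h2⟩)
    exacts [.refl, h1.tail h2]

theorem pt_dedup [DecidableEq β] {l : α → List β} (hl : PT l) : PT fun a => (l a).dedup := by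
  refine (PT.foldr_growth (f := fun _ x L => if x ∈ L then L else x :: L) hl (PT.const [])
    (by fun_prop) (fun p => 2 * sz p.2 + 1) (PB.of_le_add 2 fun p => by rw [sz_pair']; omega)
    fun a L x => by split_ifs <;> simp; omega).congr fun a => ?_
  induction l a with
  | nil => rfl
  | cons x L ih =>
    rw [List.foldr_cons, ← ih]
    split_ifs with h
    exacts [List.dedup_cons_of_mem' h, List.dedup_cons_of_notMem' h]

theorem pt_card [DecidableEq β] {l : α → List β} {p : α → β → Prop}
    {inst : ∀ a, DecidablePred (p a)} (hl : PT l) (hp : PTP fun q : α × β => p q.1 q.2) :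
    PT fun a => (@Finset.filter _ (p a) (inst a) (l a).toFinset).card := by
  refine (pt_dedup (PT.filter (f := fun a x => @decide (p a x) (inst a x)) hl
    (PT.decide hp))).length.congr fun a => ?_
  rw [← List.card_toFinset, List.toFinset_filter]
  simp

end Pool.Agent.P.MP_eb0bd2_lc
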