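import Pool.Agent.P.MP_eb0bd2_lc.Tree

set_option autoImplicit false
set_option linter.unusedSectionVars false

namespace Pool.Agent.P.MP_eb0bd2_lc

open Finset Relation

namespace MG

variable {V E : Type} {G : MG V E} [DecidableEq V] [DecidableEq E]

variable (G) in
/-- Two disjoint arc sets, one reaching everything from `s`, one reaching `t` from everywhere. -/
def GP (A : Finset E) (s t : V) : Prop :=
  ∃ H₁ ⊆ A, ∃ H₂ ⊆ A, Disjoint H₁ H₂ ∧ (∀ v ∈ G.Vs, G.Reach H₁ s v) ∧ ∀ v ∈ G.Vs, G.Reach H₂ v t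

variable (G) in
/-- Percolation from `X` reaches all vertices. -/
def Perc (A Φ : Finset E) (X : Finset V) : Prop :=
  ∃ ρ : V → ℕ, ∀ v ∈ G.Vs, v ∈ X ∨
    30 ≤ (A.filter fun e => G.tgt e = v ∧ ρ (G.src e) < ρ v).card ∨
    2 ≤ ((A ∩ Φ).filter fun e => G.tgt e = v ∧ ρ (G.src e) < ρ v).card

variable (G) in
/-- The reduced problem. -/
def Red (A : Finset E) (s t : V) (X Y : Finset V) (Φ₁ Φ₂ : Finset E) (D₁ D₂ : List (V × V)) :
    Prop :=
  G.Perc A Φ₂ X ∧ G.rev.Perc A Φ₁ Y ∧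
  (∀ x ∈ X, ReflTransGen (fun a b => (a, b) ∈ D₁ ∨ G.Arc ((A ∩ Φ₂) \ Φ₁) a b) s x) ∧
  (∀ y ∈ Y, ReflTransGen (fun a b => (a, b) ∈ D₂ ∨ G.Arc ((A ∩ Φ₁) \ Φ₂) a b) y t) ∧
  G.Feas (A \ (Φ₁ ∪ Φ₂)) (fun i => (D₁ ++ D₂).getD i (s, s)) (range (D₁ ++ D₂).length)

theorem exists_thin {H : Finset E} {s : V} (X : Finset V) (h : ∀ x ∈ X, G.Reach H s x) :
    ∃ T ⊆ H, (∀ x ∈ X, G.Reach T s x) ∧ ∀ u, (T.filter fun e => G.src e = u).card ≤ X.card := by
  have : ∀ x, ∃ l, x ∈ X → G.Walk s x l ∧ (∀ e ∈ l, e ∈ H) ∧ (G.verts s l).Nodup := by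
    intro x
    by_cases hx : x ∈ X
    · obtain ⟨l, hl⟩ := (h x hx).exists_simple
      exact ⟨l, fun _ => hl⟩
    · exact ⟨[], fun h => absurd h hx⟩
  choose P hP using this
  refine ⟨X.biUnion fun x => (P x).toFinset, biUnion_subset.2 fun x hx e he =>
    (hP x hx).2.1 e (List.mem_toFinset.1 he), fun x hx => (hP x hx).1.reach.mono
      (subset_biUnion_of_mem (fun x => (P x).toFinset) hx), fun u => ?_⟩
  rw [filter_biUnion]
  refine (card_biUnion_le_card_mul _ _ 1 fun x hx => card_le_one.2 fun a ha b hb => ?_).trans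
    (by simp)
  simp only [mem_filter, List.mem_toFinset] at ha hb
  exact (hP x hx).1.src_inj (hP x hx).2.2 ha.1 hb.1 (ha.2.trans hb.2.symm)

theorem Perc.options {A Φ T : Finset E} {X : Finset V} (h : G.Perc A Φ X) (hT : Disjoint T Φ)
    (hd : ∀ u, (T.filter fun e => G.tgt e = u).card ≤ 28) :
    ∃ ρ : V → ℕ, ∀ v ∈ G.Vs, v ∉ X →
      2 ≤ ((A \ T).filter fun e => G.tgt e = v ∧ ρ (G.src e) < ρ v).card := by
  obtain ⟨ρ, hρ⟩ := h
  refine ⟨ρ, fun v hv hX => ?_⟩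
  rcases (hρ v hv).resolve_left hX with a | a
  · have : (A.filter fun e => G.tgt e = v ∧ ρ (G.src e) < ρ v) ⊆
        ((A \ T).filter fun e => G.tgt e = v ∧ ρ (G.src e) < ρ v) ∪
          T.filter fun e => G.tgt e = v := by
      intro e he
      simp only [mem_union, mem_filter, mem_sdiff] at he ⊢
      tauto
    have b1 := (card_le_card this).trans (card_union_le _ _)
    have b2 := hd v
    omega
  · refine a.trans (card_le_card (filter_subset_filter _ fun e he => ?_))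
    exact mem_sdiff.2 ⟨(mem_inter.1 he).1, fun b => disjoint_left.1 hT b (mem_inter.1 he).2⟩

theorem reach_of_choice {H : Finset E} {s : V} {X : Finset V} (ρ : V → ℕ) (hW : G.WF H)
    (h1 : ∀ x ∈ X, G.Reach H s x)
    (h2 : ∀ v ∈ G.Vs, v ∉ X → ∃ e ∈ H, G.tgt e = v ∧ ρ (G.src e) < ρ v) :
    ∀ v ∈ G.Vs, G.Reach H s v := by
  suffices ∀ n, ∀ v ∈ G.Vs, ρ v = n → G.Reach H s v from fun v hv => this _ v hv rfl
  intro n
  induction n using Nat.strong_induction_on with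
  | _ n ih =>
    intro v hv hn
    by_cases hX : v ∈ X
    · exact h1 v hX
    obtain ⟨e, he, rfl, a⟩ := h2 v hv hX
    exact (ih _ (hn ▸ a) _ (hW e he).1 rfl).trans (Reach.single he)

theorem Red.gp {A : Finset E} (hW : G.WF A) {s t : V} {X Y : Finset V} {Φ₁ Φ₂ : Finset E}
    {D₁ D₂ : List (V × V)} (h : G.Red A s t X Y Φ₁ Φ₂ D₁ D₂) (hX : X.card ≤ 28)
    (hY : Y.card ≤ 28) : G.GP A s t := by
  obtain ⟨p1, p2, c1, c2, F, f1, f2⟩ := h
  let H₁ := (range D₁.length).biUnion F ∪ (A ∩ Φ₂) \ Φ₁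
  let H₂ := (Ico D₁.length (D₁ ++ D₂).length).biUnion F ∪ (A ∩ Φ₁) \ Φ₂
  have m1 : ∀ i ∈ range D₁.length, i ∈ range (D₁ ++ D₂).length := fun i hi => by
    simp at hi ⊢; omega
  have m2 : ∀ i ∈ Ico D₁.length (D₁ ++ D₂).length, i ∈ range (D₁ ++ D₂).length :=
    fun i hi => mem_range.2 (mem_Ico.1 hi).2
  have k1 : ∀ e ∈ H₁, e ∈ A ∧ e ∉ Φ₁ ∧ (e ∈ Φ₂ ∨ ∃ i ∈ range D₁.length, e ∈ F i) := by
    intro e he
    rcases mem_union.1 he with a | a
    · obtain ⟨i, hi, a⟩ := mem_biUnion.1 a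
      have := (f1 i (m1 i hi)).1 a
      simp only [mem_sdiff, mem_union, not_or] at this
      exact ⟨this.1, this.2.1, Or.inr ⟨i, hi, a⟩⟩
    · simp only [mem_sdiff, mem_inter] at a
      exact ⟨a.1.1, a.2, Or.inl a.1.2⟩
  have k2 : ∀ e ∈ H₂, e ∈ A ∧ e ∉ Φ₂ ∧
      (e ∈ Φ₁ ∨ ∃ i ∈ Ico D₁.length (D₁ ++ D₂).length, e ∈ F i) := by
    intro e he
    rcases mem_union.1 he with a | a
    · obtain ⟨i, hi, a⟩ := mem_biUnion.1 a
      have := (f1 i (m2 i hi)).1 a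
      simp only [mem_sdiff, mem_union, not_or] at this
      exact ⟨this.1, this.2.2, Or.inr ⟨i, hi, a⟩⟩
    · simp only [mem_sdiff, mem_inter] at a
      exact ⟨a.1.1, a.2, Or.inl a.1.2⟩
  have dH : Disjoint H₁ H₂ := disjoint_left.2 fun e a b => by
    obtain ⟨-, a1, a2⟩ := k1 e a
    obtain ⟨-, b1, b2⟩ := k2 e b
    obtain ⟨i, hi, a3⟩ := a2.resolve_left b1
    obtain ⟨j, hj, b3⟩ := b2.resolve_left a1
    refine disjoint_left.1 (f2 i (m1 i hi) j (m2 j hj) ?_) a3 b3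
    have := mem_range.1 hi
    have := (mem_Ico.1 hj).1
    omega
  have r1 : ∀ x ∈ X, G.Reach H₁ s x := fun x hx => reach_iff_rtg.2 (rtg_of_forall (by
    rintro a b (h | ⟨e, he, rfl, rfl⟩) <;> refine reach_iff_rtg.1 ?_
    · obtain ⟨i, hi, e⟩ := List.getElem_of_mem h
      have := (f1 i (m1 i (mem_range.2 hi))).2
      simp only [List.getD_eq_getElem?_getD, List.getElem?_append_left hi,
        List.getElem?_eq_getElem hi, e, Option.getD_some] at this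
      exact this.mono ((subset_biUnion_of_mem F (mem_range.2 hi)).trans subset_union_left)
    · exact Reach.single (mem_union_right _ he)) (c1 x hx))
  have r2 : ∀ y ∈ Y, G.rev.Reach H₂ t y := fun y hy => Reach.rev (reach_iff_rtg.2 (rtg_of_forall (by
    rintro a b (h | ⟨e, he, rfl, rfl⟩) <;> refine reach_iff_rtg.1 ?_
    · obtain ⟨i, hi, e⟩ := List.getElem_of_mem h
      have hi' : D₁.length + i ∈ Ico D₁.length (D₁ ++ D₂).length := by simpa using hi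
      have := (f1 _ (m2 _ hi')).2
      simp only [List.getD_eq_getElem?_getD, List.getElem?_append_right (Nat.le_add_right _ _),
        Nat.add_sub_cancel_left, List.getElem?_eq_getElem hi, e, Option.getD_some] at this
      exact this.mono ((subset_biUnion_of_mem F hi').trans subset_union_left)
    · exact Reach.single (mem_union_right _ he)) (c2 y hy)))
  obtain ⟨T₁, s1, t1, d1⟩ := exists_thin X r1
  obtain ⟨T₂, s2, t2, d2⟩ := exists_thin Y r2
  obtain ⟨ρ₁, o1⟩ := p1.options (T := T₂) (disjoint_left.2 fun e he => (k2 e (s2 he)).2.1)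
    fun u => (d2 u).trans hY
  obtain ⟨ρ₂, o2⟩ := p2.options (T := T₁) (disjoint_left.2 fun e he => (k1 e (s1 he)).2.1)
    fun u => (d1 u).trans hX
  let op : {v // v ∈ G.Vs \ X} ⊕ {v // v ∈ G.Vs \ Y} → Finset E := Sum.elim
    (fun v => (A \ T₂).filter fun e => G.tgt e = v.1 ∧ ρ₁ (G.src e) < ρ₁ v.1)
    (fun v => (A \ T₁).filter fun e => G.src e = v.1 ∧ ρ₂ (G.tgt e) < ρ₂ v.1)
  obtain ⟨c, hc, hm⟩ := (all_card_le_biUnion_card_iff_exists_injective op).1 fun J => by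
    have := card_mul_le_card_mul (s := J) (t := J.biUnion op) (m := 2) (n := 2)
      (fun j e => e ∈ op j) (fun j hj => ?_) fun e _ => ?_
    · omega
    · have : 2 ≤ (op j).card := by
        rcases j with ⟨v, hv⟩ | ⟨v, hv⟩
        exacts [o1 v (mem_sdiff.1 hv).1 (mem_sdiff.1 hv).2,
          o2 v (mem_sdiff.1 hv).1 (mem_sdiff.1 hv).2]
      exact this.trans (card_le_card fun e he =>
        (mem_bipartiteAbove _).2 ⟨mem_biUnion.2 ⟨j, hj, he⟩, he⟩)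
    · refine le_trans (card_le_card_of_injOn (t := (univ : Finset Bool)) Sum.isLeft
        (fun _ _ => mem_coe.2 (mem_univ _)) ?_) (by simp)
      rintro (⟨v, hv⟩ | ⟨v, hv⟩) a (⟨w, hw⟩ | ⟨w, hw⟩) b e'
      · have a := (mem_filter.1 ((mem_bipartiteBelow _).1 a).2).2.1
        have b := (mem_filter.1 ((mem_bipartiteBelow _).1 b).2).2.1
        exact congrArg Sum.inl (Subtype.ext (a.symm.trans b))
      · simp at e'
      · simp at e'
      · have a := (mem_filter.1 ((mem_bipartiteBelow _).1 a).2).2.1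
        have b := (mem_filter.1 ((mem_bipartiteBelow _).1 b).2).2.1
        exact congrArg Sum.inr (Subtype.ext (a.symm.trans b))
  have n1 : ∀ v, c (Sum.inl v) ∈ A \ T₂ := fun v => (mem_filter.1 (hm (Sum.inl v))).1
  have n2 : ∀ v, c (Sum.inr v) ∈ A \ T₁ := fun v => (mem_filter.1 (hm (Sum.inr v))).1
  have n3 : ∀ v, G.tgt (c (Sum.inl v)) = v.1 ∧ ρ₁ (G.src (c (Sum.inl v))) < ρ₁ v.1 :=
    fun v => (mem_filter.1 (hm (Sum.inl v))).2
  have n4 : ∀ v, G.src (c (Sum.inr v)) = v.1 ∧ ρ₂ (G.tgt (c (Sum.inr v))) < ρ₂ v.1 :=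
    fun v => (mem_filter.1 (hm (Sum.inr v))).2
  have u1 : T₁ ∪ univ.image (fun v => c (Sum.inl v)) ⊆ A :=
    union_subset (fun e he => (k1 e (s1 he)).1) fun e he => by
      obtain ⟨v, -, rfl⟩ := mem_image.1 he
      exact (mem_sdiff.1 (n1 v)).1
  have u2 : T₂ ∪ univ.image (fun v => c (Sum.inr v)) ⊆ A :=
    union_subset (fun e he => (k2 e (s2 he)).1) fun e he => by
      obtain ⟨v, -, rfl⟩ := mem_image.1 he
      exact (mem_sdiff.1 (n2 v)).1
  refine ⟨_, u1, _, u2, disjoint_left.2 fun e a b => ?_, ?_, fun v hv => reach_rev_iff.1 ?_⟩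
  · simp only [mem_union, mem_image, mem_univ, true_and] at a b
    rcases a with a | ⟨v, rfl⟩ <;> rcases b with b | ⟨w, b⟩
    · exact disjoint_left.1 dH (s1 a) (s2 b)
    · exact (mem_sdiff.1 (n2 w)).2 (b ▸ a)
    · exact (mem_sdiff.1 (n1 v)).2 b
    · simpa using hc b
  · refine reach_of_choice ρ₁ (hW.mono u1) (fun x hx => (t1 x hx).mono subset_union_left)
      fun v hv hX => ⟨c (Sum.inl ⟨v, mem_sdiff.2 ⟨hv, hX⟩⟩),
        mem_union_right _ (mem_image_of_mem _ (mem_univ _)), n3 _⟩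
  · refine reach_of_choice (G := G.rev) ρ₂ (hW.mono u2).rev
      (fun x hx => (t2 x hx).mono subset_union_left) (fun v hv hY => ⟨c (Sum.inr ⟨v,
        mem_sdiff.2 ⟨hv, hY⟩⟩), mem_union_right _ (mem_image_of_mem _ (mem_univ _)),
        n4 _⟩) v hv

theorem perc_side {A T : Finset E} {ρ : V → ℕ} {X : Finset V} {m : ℕ}
    (hρ : ∀ f, (G.Vs.filter fun v =>
      (A.filter fun e => G.tgt e = v ∧ ρ (G.src e) < ρ v).card ≤ f).card ≤ 2 * (2 * f + 0 + 1))
    (hX : X = G.Vs.filter fun v =>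
      ((A.filter fun e => G.tgt e = v ∧ ρ (G.src e) < ρ v) \ T).card ≤ 1)
    (hT : 2 * (G.Vs.filter fun u => 3 ≤ (T.filter fun e => G.tgt e = u).card).card ≤ m) :
    2 * X.card ≤ 28 + m ∧ ∃ Φ : Finset E, Φ ⊆ A ∧ Φ.card ≤ 3422 ∧ Disjoint T Φ ∧ G.Perc A Φ X := by
  constructor
  · have : X ⊆ (G.Vs.filter fun v =>
        (A.filter fun e => G.tgt e = v ∧ ρ (G.src e) < ρ v).card ≤ 3) ∪
        G.Vs.filter fun u => 3 ≤ (T.filter fun e => G.tgt e = u).card := by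
      intro v hv
      rw [hX] at hv
      obtain ⟨a1, a2⟩ := mem_filter.1 hv
      have b : (A.filter fun e => G.tgt e = v ∧ ρ (G.src e) < ρ v) ⊆
          ((A.filter fun e => G.tgt e = v ∧ ρ (G.src e) < ρ v) \ T) ∪
            T.filter fun e => G.tgt e = v := by
        intro e he
        simp only [mem_union, mem_filter, mem_sdiff] at he ⊢
        tauto
      have b1 := (card_le_card b).trans (card_union_le _ _)
      simp only [mem_union, mem_filter, a1, true_and]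
      omega
    have b1 := (card_le_card this).trans (card_union_le _ _)
    have b2 := hρ 3
    omega
  · refine ⟨(G.Vs.filter fun v => (A.filter fun e => G.tgt e = v ∧ ρ (G.src e) < ρ v).card ≤ 29
      ).biUnion fun v => (A.filter fun e => G.tgt e = v ∧ ρ (G.src e) < ρ v) \ T,
      biUnion_subset.2 fun v _ => sdiff_subset.trans (filter_subset _ _), ?_,
      (disjoint_biUnion_right _ _ _).2 fun v _ => disjoint_sdiff, ρ, fun v hv => ?_⟩
    · refine (card_biUnion_le_card_mul _ _ 29 fun v hv =>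
        (card_le_card sdiff_subset).trans (mem_filter.1 hv).2).trans ?_
      have := hρ 29
      omega
    · by_cases a : v ∈ X
      · exact Or.inl a
      by_cases b : (A.filter fun e => G.tgt e = v ∧ ρ (G.src e) < ρ v).card ≤ 29
      swap
      · exact Or.inr (Or.inl (by omega))
      rw [hX, mem_filter, not_and] at a
      have a' : 2 ≤ ((A.filter fun e => G.tgt e = v ∧ ρ (G.src e) < ρ v) \ T).card := by
        have := a hv; omega
      refine Or.inr (Or.inr (a'.trans (card_le_card fun e he => ?_)))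
      have := mem_filter.1 (mem_sdiff.1 he).1
      exact mem_filter.2 ⟨mem_inter.2 ⟨this.1, mem_biUnion.2 ⟨v, mem_filter.2 ⟨hv, b⟩, he⟩⟩, this.2⟩

theorem rtg_swap {α : Type} {r : α → α → Prop} {a b : α} (h : ReflTransGen r a b) :
    ReflTransGen (fun x y => r y x) b a := by
  induction h with
  | refl => exact .refl
  | tail _ h ih => exact .head h ih

theorem GP.red [Nonempty E] {A : Finset E} (hW : G.WF A) (hA : G.Rob A 0) {s t : V}
    (hs : s ∈ G.Vs) (ht : t ∈ G.Vs) (h : G.GP A s t) :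
    ∃ (X Y : Finset V) (Φ₁ Φ₂ : Finset E) (D₁ D₂ : List (V × V)), X ⊆ G.Vs ∧ Y ⊆ G.Vs ∧
      X.card ≤ 28 ∧ Y.card ≤ 28 ∧ Φ₁ ⊆ A ∧ Φ₂ ⊆ A ∧ Φ₁.card ≤ 3422 ∧ Φ₂.card ≤ 3422 ∧
      D₁.length ≤ 3478 ∧ D₂.length ≤ 3478 ∧ (∀ p ∈ D₁, p.1 ∈ G.Vs ∧ p.2 ∈ G.Vs) ∧
      (∀ p ∈ D₂, p.1 ∈ G.Vs ∧ p.2 ∈ G.Vs) ∧ G.Red A s t X Y Φ₁ Φ₂ D₁ D₂ := by
  obtain ⟨H₁, s1, H₂, s2, dH, r1, r2⟩ := h
  obtain ⟨T₁, m1, a1, b1, c1⟩ := exists_subtrees (hW.mono s1) r1
  obtain ⟨T₂, m2, a2, b2, c2⟩ := exists_subtrees (G := G.rev) (hW.mono s2).rev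
    fun v hv => (r2 v hv).rev
  obtain ⟨ρ₁, o1⟩ := hA.exists_order
  obtain ⟨ρ₂, o2⟩ := hA.rev.exists_order
  let f₁ : Finset V → Finset V := fun Y => G.Vs.filter fun v =>
    ((A.filter fun e => G.tgt e = v ∧ ρ₁ (G.src e) < ρ₁ v) \ T₂ Y).card ≤ 1
  let f₂ : Finset V → Finset V := fun X => G.Vs.filter fun v =>
    ((A.filter fun e => G.src e = v ∧ ρ₂ (G.tgt e) < ρ₂ v) \ T₁ X).card ≤ 1
  have g1 : ∀ Y Y', Y ⊆ Y' → f₁ Y ⊆ f₁ Y' := fun Y Y' h v hv => mem_filter.2 ⟨(mem_filter.1 hv).1,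
    (card_le_card (sdiff_subset_sdiff Subset.rfl (m2 _ _ h))).trans (mem_filter.1 hv).2⟩
  have g2 : ∀ Y Y', Y ⊆ Y' → f₂ Y ⊆ f₂ Y' := fun Y Y' h v hv => mem_filter.2 ⟨(mem_filter.1 hv).1,
    (card_le_card (sdiff_subset_sdiff Subset.rfl (m1 _ _ h))).trans (mem_filter.1 hv).2⟩
  obtain ⟨X, hX, hmax⟩ := exists_max_image (G.Vs.powerset.filter fun X => X ⊆ f₁ (f₂ X)) card
    ⟨∅, by simp⟩
  obtain ⟨hXV, hX⟩ : X ⊆ G.Vs ∧ X ⊆ f₁ (f₂ X) := by simpa using hX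
  have eX : X = f₁ (f₂ X) := eq_of_subset_of_card_le hX (hmax _ (mem_filter.2
    ⟨mem_powerset.2 (filter_subset _ _), g1 _ _ (g2 _ _ hX)⟩))
  obtain ⟨n1, Φ₂, q1, q2, q3, q4⟩ := perc_side o1 eX (c2 (f₂ X))
  obtain ⟨n2, Φ₁, q5, q6, q7, q8⟩ := perc_side (G := G.rev) (X := f₂ X) o2 rfl (c1 X)
  have hYV : f₂ X ⊆ G.Vs := filter_subset _ _
  obtain ⟨L₁, l1, ⟨u1, v1⟩, w1⟩ := exists_famS (hW.mono ((a1 X).trans s1)) hs X (b1 X hXV) Φ₂
  obtain ⟨L₂, l2, ⟨u2, v2⟩, w2⟩ := exists_famS (G := G.rev) (hW.mono ((a2 _).trans s2)).rev ht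
    (f₂ X) (b2 _ hYV) Φ₁
  have hF : G.FamS (A \ (Φ₁ ∪ Φ₂)) (L₁ ++ L₂.map fun p => (p.1.swap, p.2)) := by
    refine ⟨fun p hp => ?_, List.pairwise_append.2 ⟨v1, List.pairwise_map.2 v2,
      fun p hp q hq => ?_⟩⟩
    · rcases List.mem_append.1 hp with hp | hp
      · refine ⟨fun e he => ?_, (u1 p hp).2⟩
        have := mem_sdiff.1 ((u1 p hp).1 he)
        exact mem_sdiff.2 ⟨s1 (a1 X this.1), fun a => (mem_union.1 a).elim
          (disjoint_left.1 q7 this.1) this.2⟩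
      · obtain ⟨q, hq, rfl⟩ := List.mem_map.1 hp
        refine ⟨fun e he => ?_, (u2 q hq).2.1.rev, (u2 q hq).2.2.symm⟩
        have := mem_sdiff.1 ((u2 q hq).1 he)
        exact mem_sdiff.2 ⟨s2 (a2 _ this.1), fun a => (mem_union.1 a).elim this.2
          (disjoint_left.1 q3 this.1)⟩
    · obtain ⟨q', hq', rfl⟩ := List.mem_map.1 hq
      exact dH.mono (((u1 p hp).1.trans sdiff_subset).trans (a1 X))
        (((u2 q' hq').1.trans sdiff_subset).trans (a2 _))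
  have z1 : T₁ X ∩ Φ₂ ⊆ (A ∩ Φ₂) \ Φ₁ := fun e he => by
    have := mem_inter.1 he
    exact mem_sdiff.2 ⟨mem_inter.2 ⟨q1 this.2, this.2⟩, disjoint_left.1 q7 this.1⟩
  have z2 : T₂ (f₂ X) ∩ Φ₁ ⊆ (A ∩ Φ₁) \ Φ₂ := fun e he => by
    have := mem_inter.1 he
    exact mem_sdiff.2 ⟨mem_inter.2 ⟨q5 this.2, this.2⟩, disjoint_left.1 q3 this.1⟩
  have z3 : ∀ a b, (b, a) ∈ L₂.map Prod.fst → (a, b) ∈ L₂.map fun p => p.1.swap := by
    intro a b h
    obtain ⟨q, hq, e⟩ := List.mem_map.1 h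
    exact List.mem_map.2 ⟨q, hq, by rw [e]; rfl⟩
  refine ⟨X, f₂ X, Φ₁, Φ₂, L₁.map Prod.fst, L₂.map fun p => p.1.swap, hXV, hYV, by omega, by omega,
    q5, q1, q6, q2, by simp; omega, by simp; omega, fun p hp => ?_, fun p hp => ?_, q4, q8,
    fun x hx => rtg_mono (w1 x hx) fun a b h => h.imp_right (·.mono z1),
    fun y hy => rtg_mono (rtg_swap (w2 y hy)) fun a b h =>
      Or.imp (z3 a b) (fun h => (arc_rev.1 h).mono z2) h, ?_⟩
  · obtain ⟨q, hq, rfl⟩ := List.mem_map.1 hp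
    exact (u1 q hq).2.2
  · obtain ⟨q, hq, rfl⟩ := List.mem_map.1 hp
    exact (u2 q hq).2.2.symm
  · have := hF.feas (s, s)
    simpa [List.map_append, List.map_map, Function.comp_def] using this

end MG

end Pool.Agent.P.MP_eb0bd2_lc
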