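import Pool.Agent.P.MP_eb0bd2_lc.Rich

set_option autoImplicit false
set_option linter.unusedSectionVars false

namespace Pool.Agent.P.MP_eb0bd2_lc

open Finset

theorem exists_halves {E : Type} [DecidableEq E] (f : E → ℤ) (r : ℕ) (L : Finset E)
    (hf : ∀ a ∈ L, ∀ b ∈ L, f a = f b → a = b) (hL : 2 * r ≤ L.card) :
    ∃ L₁ ⊆ L, ∃ L₂ ⊆ L, r ≤ L₁.card ∧ r ≤ L₂.card ∧ ∀ a ∈ L₁, ∀ b ∈ L₂, f a < f b := by
  induction r generalizing L with
  | zero => exact ⟨∅, by simp, ∅, by simp, by simp, by simp, by simp⟩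
  | succ r ih =>
    obtain ⟨a, ha, hmin⟩ := exists_min_image L f (card_pos.1 (by omega))
    have c1 := card_erase_of_mem ha
    obtain ⟨b, hb, hmax⟩ := exists_max_image (L.erase a) f (card_pos.1 (by omega))
    have c2 := card_erase_of_mem hb
    have hsub : (L.erase a).erase b ⊆ L := (erase_subset _ _).trans (erase_subset _ _)
    obtain ⟨L₁, s1, L₂, s2, d1, d2, hlt⟩ := ih ((L.erase a).erase b)
      (fun x hx y hy => hf x (hsub hx) y (hsub hy)) (by omega)
    have hlo : ∀ x ∈ L.erase a, f a < f x := fun x hx =>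
      lt_of_le_of_ne (hmin x (mem_of_mem_erase hx)) fun h =>
        (mem_erase.1 hx).1 (hf _ ha _ (mem_of_mem_erase hx) h).symm
    refine ⟨insert a L₁, insert_subset ha (s1.trans hsub), insert b L₂,
      insert_subset (mem_of_mem_erase hb) (s2.trans hsub), ?_, ?_, fun x hx y hy => ?_⟩
    · rw [card_insert_of_notMem fun h => by simpa using s1 h]; omega
    · rw [card_insert_of_notMem fun h => by simpa using s2 h]; omega
    · rcases mem_insert.1 hx with rfl | hx <;> rcases mem_insert.1 hy with rfl | hy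
      · exact hlo _ hb
      · exact hlo _ (mem_of_mem_erase (s2 hy))
      · exact lt_of_le_of_ne (hmax x (mem_of_mem_erase (s1 hx))) fun h =>
          (mem_erase.1 (s1 hx)).1 (hf _ (hsub (s1 hx)) _ (mem_of_mem_erase hb) h)
      · exact hlt x hx y hy

namespace MG

variable {V E : Type} {G : MG V E} [DecidableEq V] [DecidableEq E]

variable (G) in
/-- A path `P` from `s` with positions, having no shortcut among the arcs of `A`. -/
structure Row (A P : Finset E) (s : V) (pos : V → ℤ) (On : Set V) : Prop where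
  on_src : ∀ e ∈ P, G.src e ∈ On
  on_tgt : ∀ e ∈ P, G.tgt e ∈ On
  on_s : s ∈ On
  step : ∀ e ∈ P, pos (G.tgt e) = pos (G.src e) + 1
  inj : ∀ u ∈ On, ∀ v ∈ On, pos u = pos v → u = v
  first : ∀ e ∈ P, pos s ≤ pos (G.src e)
  short : ∀ u ∈ On, ∀ v ∈ On, G.Arc A u v → pos v ≤ pos u + 1
  src_inj : ∀ e ∈ P, ∀ f ∈ P, G.src e = G.src f → e = f

theorem Row.near {A P : Finset E} {s : V} {pos : V → ℤ} {On : Set V} (h : G.Row A P s pos On)
    (a : ℤ) : ∃ N : Finset V, N.card ≤ 2 ∧ ∀ y ∈ On, a ≤ pos y → pos y ≤ a + 1 → y ∈ N := by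
  have one : ∀ a : ℤ, ∃ N : Finset V, N.card ≤ 1 ∧ ∀ y ∈ On, pos y = a → y ∈ N := by
    intro a
    by_cases hx : ∃ x ∈ On, pos x = a
    · obtain ⟨x, hx, rfl⟩ := hx
      exact ⟨{x}, by simp, fun y hy e => mem_singleton.2 (h.inj _ hy _ hx e)⟩
    · exact ⟨∅, by simp, fun y hy e => absurd ⟨y, hy, e⟩ hx⟩
  obtain ⟨N₁, c1, m1⟩ := one a
  obtain ⟨N₂, c2, m2⟩ := one (a + 1)
  refine ⟨N₁ ∪ N₂, (card_union_le _ _).trans (by omega), fun y hy h1 h2 => ?_⟩
  by_cases e : pos y = a
  · exact mem_union_left _ (m1 y hy e)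
  · exact mem_union_right _ (m2 y hy (by omega))

theorem Arc.mem_tails {A : Finset E} {x y : V} {S : Set V} (h : G.Arc A x y) (hx : x ∈ S)
    (hy : y ∉ S) : x ∈ (G.cut A S).image G.src := by
  obtain ⟨e, he, rfl, rfl⟩ := h
  exact mem_image_of_mem _ (mem_cut.2 ⟨he, hx, hy⟩)

theorem Arc.mem_heads {A : Finset E} {x y : V} {S : Set V} (h : G.Arc A x y) (hx : x ∈ S)
    (hy : y ∉ S) : y ∈ (G.cut A S).image G.tgt := by
  obtain ⟨e, he, rfl, rfl⟩ := h
  exact mem_image_of_mem _ (mem_cut.2 ⟨he, hx, hy⟩)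

theorem Row.exists_set {A P : Finset E} {s : V} {pos : V → ℤ} {On : Set V}
    (h : G.Row A P s pos On) {X : V → Finset V} {Δ K m : ℕ} (h1 : ∀ x, (X x).card ≤ Δ)
    (h3 : ∀ x ∈ G.Vs, ∀ y ∈ G.Vs, ∀ z ∈ G.Vs, x ≠ y → y ≠ z → x ≠ z →
      G.Nb A X x y ∨ G.Nb A X y z ∨ G.Nb A X x z)
    (hP : G.WF P) (hs : s ∈ G.Vs) {S S' : Set V} (hsS : s ∉ S) (hsS' : s ∉ S')
    (c1 : (G.cut A S).card ≤ K) (c2 : (G.cut A S').card ≤ K) (c3 : (G.cut P S').card ≤ K)
    (c4 : 2 * (m + 2 * Δ + 3 * K + 5) ≤ (G.cut P S).card) :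
    ∃ W : Finset V, m ≤ W.card ∧ ∀ w ∈ W, w ∈ G.Vs ∧ w ∈ S ∧ w ∉ S' ∧ ¬ G.Nb A X s w := by
  classical
  have hc : ∀ e ∈ G.cut P S, e ∈ P := fun e he => (mem_cut.1 he).1
  obtain ⟨L₁, s1, L₂, s2, d1, d2, hlt⟩ := exists_halves (fun e => pos (G.src e)) _ (G.cut P S)
    (fun a ha b hb e => h.src_inj a (hc a ha) b (hc b hb)
      (h.inj _ (h.on_src a (hc a ha)) _ (h.on_src b (hc b hb)) e)) c4
  obtain ⟨Ns, n1, n2⟩ := h.near (pos s)
  let T := (G.cut A S).image G.src
  let T' := (G.cut A S').image G.src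
  have t1 : T.card ≤ K := card_image_le.trans c1
  have t2 : T'.card ≤ K := card_image_le.trans c2
  let B := X s ∪ T ∪ Ns
  have hB : B.card ≤ Δ + K + 2 := by
    have a1 := card_union_le (X s ∪ T) Ns
    have a2 := card_union_le (X s) T
    have := h1 s
    simp only [B]
    omega
  have hnb : ∀ e ∈ G.cut P S, G.src e ∉ B → ¬ G.Nb A X s (G.src e) := by
    intro e he hb
    simp only [B, mem_union, not_or] at hb
    rintro (a | a | a)
    · exact hb.2 (n2 _ (h.on_src e (hc e he)) (h.first e (hc e he))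
        (h.short _ h.on_s _ (h.on_src e (hc e he)) a))
    · exact hb.1.2 (a.mem_tails (mem_cut.1 he).2.1 hsS)
    · exact hb.1.1 a
  have inj1 : ∀ L ⊆ G.cut P S, (L.image G.src).card = L.card := fun L hL =>
    card_image_of_injOn fun a ha b hb e => h.src_inj a (hc a (hL ha)) b (hc b (hL hb)) e
  have stepB : ∀ e ∈ L₁, G.Nb A X s (G.tgt e) := by
    intro e he
    have heP := hc e (s1 he)
    obtain ⟨Nz, z1, z2⟩ := h.near (pos (G.tgt e))
    obtain ⟨w, hw, hw'⟩ : ∃ w ∈ L₂.image G.src, w ∉ B ∪ (X (G.tgt e) ∪ Nz) := by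
      refine exists_mem_notMem_of_card_lt_card ?_
      have a1 := card_union_le B (X (G.tgt e) ∪ Nz)
      have a2 := card_union_le (X (G.tgt e)) Nz
      have := h1 (G.tgt e)
      rw [inj1 _ s2]
      omega
    obtain ⟨f, hf, rfl⟩ := mem_image.1 hw
    have hfP := hc f (s2 hf)
    have hfS := (mem_cut.1 (s2 hf)).2.1
    have heS := (mem_cut.1 (s1 he)).2.2
    simp only [mem_union, not_or] at hw'
    have p1 := h.step e heP
    have p2 := h.first e heP
    have p3 := hlt e he f hf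
    rcases h3 s hs _ (hP e heP).2 _ (hP f hfP).1 (fun e => by rw [← e] at p1; omega)
      (fun e => heS (e ▸ hfS)) (fun e => hsS (e ▸ hfS)) with a | a | a
    · exact a
    · exfalso
      rcases a with a | a | a
      · exact hw'.2.2 (z2 _ (h.on_src f hfP) (by omega)
          (h.short _ (h.on_tgt e heP) _ (h.on_src f hfP) a))
      · exact hw'.1 (mem_union_left _ (mem_union_right _ (a.mem_tails hfS heS)))
      · exact hw'.2.1 a
    · exact absurd a (hnb f (s2 hf) hw'.1)
  let B' := X s ∪ T' ∪ Ns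
  have hB' : B'.card ≤ Δ + K + 2 := by
    have a1 := card_union_le (X s ∪ T') Ns
    have a2 := card_union_le (X s) T'
    have := h1 s
    simp only [B']
    omega
  let L := L₁ \ ((L₁.filter fun e => G.tgt e ∈ B') ∪ G.cut P S' ∪
    (L₁.filter fun e => G.src e ∈ B))
  have f1 : (L₁.filter fun e => G.tgt e ∈ B').card ≤ B'.card := by
    refine card_le_card_of_injOn G.tgt (fun e he => (mem_filter.1 he).2) fun a ha b hb e => ?_
    have ha := hc a (s1 (mem_filter.1 ha).1)
    have hb := hc b (s1 (mem_filter.1 hb).1)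
    refine h.src_inj a ha b hb (h.inj _ (h.on_src a ha) _ (h.on_src b hb) ?_)
    have p1 := h.step a ha
    have p2 := h.step b hb
    rw [e] at p1
    omega
  have f2 : (L₁.filter fun e => G.src e ∈ B).card ≤ B.card :=
    card_le_card_of_injOn G.src (fun e he => (mem_filter.1 he).2) fun a ha b hb e =>
      h.src_inj a (hc a (s1 (mem_filter.1 ha).1)) b (hc b (s1 (mem_filter.1 hb).1)) e
  refine ⟨L.image G.src, ?_, fun w hw => ?_⟩
  · rw [inj1 _ (sdiff_subset.trans s1)]
    have a0 := le_card_sdiff ((L₁.filter fun e => G.tgt e ∈ B') ∪ G.cut P S' ∪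
      (L₁.filter fun e => G.src e ∈ B)) L₁
    have a1 := card_union_le ((L₁.filter fun e => G.tgt e ∈ B') ∪ G.cut P S')
      (L₁.filter fun e => G.src e ∈ B)
    have a2 := card_union_le (L₁.filter fun e => G.tgt e ∈ B') (G.cut P S')
    omega
  · obtain ⟨e, he, rfl⟩ := mem_image.1 hw
    obtain ⟨he, he'⟩ := mem_sdiff.1 he
    simp only [mem_union, mem_filter, not_or, he, true_and] at he'
    have heP := hc e (s1 he)
    refine ⟨(hP e heP).1, (mem_cut.1 (s1 he)).2.1, fun hS' => ?_, hnb e (s1 he) he'.2⟩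
    have hz : G.tgt e ∈ S' := by
      by_contra hz
      exact he'.1.2 (mem_cut.2 ⟨heP, hS', hz⟩)
    have hb := he'.1.1
    simp only [B', mem_union, not_or] at hb
    rcases stepB e he with a | a | a
    · have p1 := h.step e heP
      have p2 := h.first e heP
      exact hb.2 (n2 _ (h.on_tgt e heP) (by omega) (h.short _ h.on_s _ (h.on_tgt e heP) a))
    · exact hb.1.2 (a.mem_tails hz hsS')
    · exact hb.1.1 a

theorem two_rows {A P P' : Finset E} {s : V} {pos pos' : V → ℤ} {On On' : Set V} {Δ K : ℕ}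
    (hA : G.Rob A Δ) (h : G.Row A P s pos On) (h' : G.Row A P' s pos' On')
    (hP : G.WF P) (hP' : G.WF P') (hs : s ∈ G.Vs) {S S' : Set V} (hsS : s ∉ S) (hsS' : s ∉ S')
    (c1 : (G.cut A S).card ≤ K) (c2 : (G.cut A S').card ≤ K) (c3 : (G.cut P S').card ≤ K)
    (c3' : (G.cut P' S).card ≤ K)
    (c4 : 2 * (3 * Δ + 5 * K + 6) ≤ (G.cut P S).card)
    (c4' : 2 * (3 * Δ + 5 * K + 6) ≤ (G.cut P' S').card) : False := by
  obtain ⟨X, h1, -, h3⟩ := hA
  obtain ⟨W, w1, w2⟩ := h.exists_set (m := Δ + 2 * K + 1) h1 h3 hP hs hsS hsS' c1 c2 c3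
    (by omega)
  obtain ⟨W', w1', w2'⟩ := h'.exists_set (m := Δ + 2 * K + 1) h1 h3 hP' hs hsS' hsS c2 c1 c3'
    (by omega)
  obtain ⟨w, hw, hw'⟩ : ∃ w ∈ W, w ∉ (G.cut A S).image G.src ∪ (G.cut A S').image G.tgt := by
    refine exists_mem_notMem_of_card_lt_card ?_
    have a1 := card_union_le ((G.cut A S).image G.src) ((G.cut A S').image G.tgt)
    have a2 := card_image_le (s := G.cut A S) (f := G.src)
    have a3 := card_image_le (s := G.cut A S') (f := G.tgt)
    omega
  obtain ⟨z, hz, hz'⟩ : ∃ z ∈ W', z ∉ X w :=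
    exists_mem_notMem_of_card_lt_card (by have := h1 w; omega)
  obtain ⟨a1, a2, a3, a4⟩ := w2 w hw
  obtain ⟨b1, b2, b3, b4⟩ := w2' z hz
  simp only [mem_union, not_or] at hw'
  rcases h3 s hs w a1 z b1 (fun e => hsS (e ▸ a2)) (fun e => b3 (e ▸ a2))
    (fun e => hsS' (e ▸ b2)) with a | (a | a | a) | a
  exacts [a4 a, hw'.1 (a.mem_tails a2 b3), hw'.2 (a.mem_heads b2 a3), hz' a, b4 a]

/-- A family of arc-disjoint paths of least total length. -/
theorem exists_rows {A : Finset E} {s t : V} {N : ℕ} (h : G.Rich A N s t) :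
    ∃ P : ℕ → List E,
      (∀ i ∈ range N, G.Walk s t (P i) ∧ (∀ e ∈ P i, e ∈ A) ∧ (G.verts s (P i)).Nodup) ∧
      (∀ i ∈ range N, ∀ j ∈ range N, i ≠ j → Disjoint (P i).toFinset (P j).toFinset) ∧
      ∀ i ∈ range N, ∃ pos On,
        G.Row (A \ (range N).biUnion fun i => (P i).toFinset) (P i).toFinset s pos On ∧
        G.rev.Row (A \ (range N).biUnion fun i => (P i).toFinset) (P i).toFinset t (-pos) On := by
  classical
  let Q : (ℕ → List E) → Prop := fun P =>
    (∀ i ∈ range N, G.Walk s t (P i) ∧ (∀ e ∈ P i, e ∈ A) ∧ (G.verts s (P i)).Nodup) ∧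
      (∀ i ∈ range N, ∀ j ∈ range N, i ≠ j → Disjoint (P i).toFinset (P j).toFinset)
  have hex : ∃ n, ∃ P, Q P ∧ ∑ i ∈ range N, (P i).length = n := by
    obtain ⟨F, h1, h2⟩ := menger h
    have : ∀ i, ∃ l, i ∈ range N → G.Walk s t l ∧ (∀ e ∈ l, e ∈ F i) ∧ (G.verts s l).Nodup := by
      intro i
      by_cases hi : i ∈ range N
      · obtain ⟨l, hl⟩ := (h1 i hi).2.exists_simple
        exact ⟨l, fun _ => hl⟩
      · exact ⟨[], fun h => absurd h hi⟩
    choose P hP using this
    refine ⟨_, P, ⟨fun i hi => ⟨(hP i hi).1, fun e he => (h1 i hi).1 ((hP i hi).2.1 e he),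
      (hP i hi).2.2⟩, fun i hi j hj hij => (h2 i hi j hj hij).mono ?_ ?_⟩, rfl⟩
    · exact fun e he => (hP i hi).2.1 e (List.mem_toFinset.1 he)
    · exact fun e he => (hP j hj).2.1 e (List.mem_toFinset.1 he)
  obtain ⟨P, hQ, hlen⟩ := Nat.find_spec hex
  refine ⟨P, hQ.1, hQ.2, fun i hi => ?_⟩
  obtain ⟨hw, hA, hn⟩ := hQ.1 i hi
  obtain ⟨pos, p0, p1, p2, p3⟩ := hw.exists_pos hn
  have hshort : ∀ u ∈ G.verts s (P i), ∀ v ∈ G.verts s (P i),
      G.Arc (A \ (range N).biUnion fun i => (P i).toFinset) u v → pos v ≤ pos u + 1 := by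
    rintro u hu v hv ⟨f, hf, rfl, rfl⟩
    obtain ⟨hfA, hfU⟩ := mem_sdiff.1 hf
    obtain ⟨l₁, l₂, e1, w1, -⟩ := hw.split_vert hu
    obtain ⟨l₃, l₄, e2, w3, w4⟩ := hw.split_vert hv
    obtain ⟨l, hs, hlw, hln⟩ := (w1.append (Walk.cons f _ _ w4)).exists_simple
    have hmem : ∀ e ∈ l, e = f ∨ e ∈ P i := by
      intro e he
      have := hs.subset he
      simp only [List.mem_append, List.mem_cons] at this
      rcases this with a | a | a
      · exact Or.inr (e1 ▸ List.mem_append_left _ a)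
      · exact Or.inl a
      · exact Or.inr (e2 ▸ List.mem_append_right _ a)
    have hd : ∀ j ∈ range N, j ≠ i → Disjoint (P j).toFinset l.toFinset := by
      intro j hj hji
      refine disjoint_right.2 fun e he he' => ?_
      rcases hmem e (List.mem_toFinset.1 he) with rfl | a
      · exact hfU (mem_biUnion.2 ⟨j, hj, he'⟩)
      · exact disjoint_left.1 (hQ.2 j hj i hi hji) he' (List.mem_toFinset.2 a)
    have hQ' : Q (Function.update P i l) := by
      refine ⟨fun j hj => ?_, fun j hj j' hj' hjj => ?_⟩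
      · by_cases hji : j = i
        · subst hji
          rw [Function.update_self]
          exact ⟨hlw, fun e he => (hmem e he).elim (fun a => a ▸ hfA) (hA e), hln⟩
        · rw [Function.update_of_ne hji]
          exact hQ.1 j hj
      · by_cases hji : j = i
        · subst hji
          rw [Function.update_self, Function.update_of_ne hjj.symm]
          exact (hd j' hj' hjj.symm).symm
        · by_cases hj'i : j' = i
          · subst hj'i
            rw [Function.update_self, Function.update_of_ne hji]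
            exact hd j hj hji
          · rw [Function.update_of_ne hji, Function.update_of_ne hj'i]
            exact hQ.2 j hj j' hj' hjj
    have hmin := Nat.find_min' hex ⟨_, hQ', rfl⟩
    rw [← hlen, ← add_sum_erase _ _ hi, ← add_sum_erase _ _ hi, Function.update_self] at hmin
    have hsame : ∑ j ∈ (range N).erase i, (Function.update P i l j).length =
        ∑ j ∈ (range N).erase i, (P j).length :=
      sum_congr rfl fun j hj => by rw [Function.update_of_ne (mem_erase.1 hj).1]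
    have a1 := hs.length_le
    have a2 := p3 _ _ _ e1 w1
    have a3 := p3 _ _ _ e2 w3
    have a4 := congrArg List.length e2
    simp only [List.length_append, List.length_cons] at a1 a4
    omega
  have hlast : ∀ u ∈ G.verts s (P i), pos u ≤ pos t := by
    intro u hu
    obtain ⟨l₁, l₂, e1, w1, -⟩ := hw.split_vert hu
    rw [p3 _ _ _ e1 w1, p3 t (P i) [] (by simp) hw, e1]
    simp
  refine ⟨fun v => pos v, {v | v ∈ G.verts s (P i)}, ⟨?_, ?_, ?_, ?_, ?_, ?_, ?_, ?_⟩,
    ⟨?_, ?_, ?_, ?_, ?_, ?_, ?_, ?_⟩⟩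
  · exact fun e he => hw.src_mem (List.mem_toFinset.1 he)
  · exact fun e he => tgt_mem_verts (List.mem_toFinset.1 he)
  · simp [verts]
  · exact fun e he => by have := p1 e (List.mem_toFinset.1 he); omega
  · exact fun u hu v hv e => p2 u hu v hv (by omega)
  · exact fun e he => by omega
  · exact fun u hu v hv a => by have := hshort u hu v hv a; omega
  · exact fun e he f hf => hw.src_inj hn (List.mem_toFinset.1 he) (List.mem_toFinset.1 hf)
  · exact fun e he => tgt_mem_verts (List.mem_toFinset.1 he)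
  · exact fun e he => hw.src_mem (List.mem_toFinset.1 he)
  · exact hw.end_mem
  · exact fun e he => by have := p1 e (List.mem_toFinset.1 he); simp; omega
  · exact fun u hu v hv e => p2 u hu v hv (by simpa using e)
  · exact fun e he => by have := hlast _ (tgt_mem_verts (List.mem_toFinset.1 he)); simpa
  · exact fun u hu v hv a => by have := hshort v hv u hu (arc_rev.1 a); simp; omega
  · exact fun e he f hf =>
      tgt_inj_of_nodup hn (List.mem_toFinset.1 he) (List.mem_toFinset.1 hf)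

theorem Walk.cut_nonempty {x y : V} {l : List E} (h : G.Walk x y l) {S : Set V} (hx : x ∈ S)
    (hy : y ∉ S) : (G.cut l.toFinset S).Nonempty := by
  by_contra hc
  refine hy (h.reach.induction (· ∈ S) hx fun e he h1 => ?_)
  by_contra h2
  exact hc ⟨e, mem_cut.2 ⟨he, h1, h2⟩⟩

theorem card_cut_le_add (A F : Finset E) (S : Set V) :
    (G.cut A S).card ≤ (G.cut (A \ F) S).card + (G.cut F S).card := by
  refine le_trans (card_le_card fun e he => ?_) (card_union_le _ _)
  simp only [mem_union, mem_cut, mem_sdiff] at he ⊢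
  tauto

/-- A richly connected pair is joined by a path whose removal keeps rich pairs rich. -/
theorem exists_good_path (Δ K' : ℕ) : ∃ K : ℕ, ∀ (G : MG V E) (A : Finset E) (s t : V),
    G.Rob A Δ → G.WF A → s ∈ G.Vs → t ∈ G.Vs → G.Rich A K s t →
    ∃ l, G.Walk s t l ∧ (∀ e ∈ l, e ∈ A) ∧ (G.verts s l).Nodup ∧
      ∀ u v, G.Rich A K u v → G.Rich (A \ l.toFinset) K' u v := by
  refine ⟨K' + 3 + 2 * (3 * (Δ + (K' + 3) * 2) + 5 * K' + 6), fun G A s t hA hW hs ht hr => ?_⟩
  obtain ⟨P, h1, h2, h3⟩ := exists_rows (hr.of_le (Nat.le_add_right (K' + 3) _))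
  by_contra hcon
  have hbad : ∀ i, ∃ S : Set V, i ∈ range (K' + 3) →
      (G.cut (A \ (P i).toFinset) S).card < K' ∧
      2 * (3 * (Δ + (K' + 3) * 2) + 5 * K' + 6) ≤ (G.cut (P i).toFinset S).card := by
    intro i
    by_cases hi : i ∈ range (K' + 3)
    · have : ¬ ∀ u v, G.Rich A (K' + 3 + 2 * (3 * (Δ + (K' + 3) * 2) + 5 * K' + 6)) u v →
          G.Rich (A \ (P i).toFinset) K' u v :=
        fun h => hcon ⟨P i, (h1 i hi).1, (h1 i hi).2.1, (h1 i hi).2.2, h⟩
      simp only [Rich, not_forall, not_le] at this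
      obtain ⟨u, v, huv, S, hu, hv, hS⟩ := this
      have a1 := huv S hu hv
      have a2 := card_cut_le_add (G := G) A (P i).toFinset S
      exact ⟨S, fun _ => ⟨hS, by omega⟩⟩
    · exact ⟨∅, fun h => absurd h hi⟩
  choose S hS using hbad
  set A₀ := A \ (range (K' + 3)).biUnion fun i => (P i).toFinset with hA₀
  have hPA : ∀ i ∈ range (K' + 3), (P i).toFinset ⊆ A :=
    fun i hi e he => (h1 i hi).2.1 e (List.mem_toFinset.1 he)
  have hR : G.Rob A₀ (Δ + (K' + 3) * 2) := by
    have := hA.sdiff (deg_biUnion (I := range (K' + 3)) fun i hi => (h1 i hi).1.deg (h1 i hi).2.2)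
    rwa [card_range] at this
  have c0 : ∀ i ∈ range (K' + 3), (G.cut A₀ (S i)).card ≤ K' := fun i hi =>
    le_trans (card_le_card (cut_mono (sdiff_subset_sdiff Subset.rfl
      (subset_biUnion_of_mem (fun i => (P i).toFinset) hi)) _)) (hS i hi).1.le
  have hsub : ∀ i ∈ range (K' + 3), ∀ j ∈ range (K' + 3), i ≠ j →
      (P j).toFinset ⊆ A \ (P i).toFinset := fun i hi j hj hij =>
    subset_sdiff.2 ⟨hPA j hj, h2 j hj i hi hij.symm⟩
  have c1 : ∀ i ∈ range (K' + 3), ∀ j ∈ range (K' + 3), i ≠ j →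
      (G.cut (P j).toFinset (S i)).card ≤ K' := fun i hi j hj hij =>
    le_trans (card_le_card (cut_mono (hsub i hi j hj hij) _)) (hS i hi).1.le
  have typ : ∀ i ∈ range (K' + 3), s ∉ S i ∨ t ∈ S i := by
    intro i hi
    by_contra hc
    push Not at hc
    have a1 : ((range (K' + 3)).erase i).card ≤
        (((range (K' + 3)).erase i).biUnion fun j => G.cut (P j).toFinset (S i)).card := by
      refine card_le_card_biUnion (fun j hj j' hj' hjj => ?_) fun j hj =>
        (h1 j (mem_of_mem_erase hj)).1.cut_nonempty hc.1 hc.2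
      refine (h2 j (mem_of_mem_erase hj) j' (mem_of_mem_erase hj') hjj).mono ?_ ?_ <;>
        exact fun e he => (mem_cut.1 he).1
    have a2 : (((range (K' + 3)).erase i).biUnion fun j => G.cut (P j).toFinset (S i)) ⊆
        G.cut (A \ (P i).toFinset) (S i) := biUnion_subset.2 fun j hj =>
      cut_mono (hsub i hi j (mem_of_mem_erase hj) (mem_erase.1 hj).1.symm) _
    have a3 := card_le_card a2
    have a4 := (hS i hi).1
    rw [card_erase_of_mem hi, card_range] at a1
    omega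
  have k1 : ∀ i ∈ range (K' + 3), ∀ j ∈ range (K' + 3), i ≠ j → s ∉ S i → s ∉ S j → False := by
    intro i hi j hj hij a b
    obtain ⟨_, _, r1, -⟩ := h3 i hi
    obtain ⟨_, _, r2, -⟩ := h3 j hj
    exact two_rows hR r1 r2 (hW.mono (hPA i hi)) (hW.mono (hPA j hj)) hs a b (c0 i hi) (c0 j hj)
      (c1 j hj i hi hij.symm) (c1 i hi j hj hij) (hS i hi).2 (hS j hj).2
  have k2 : ∀ i ∈ range (K' + 3), ∀ j ∈ range (K' + 3), i ≠ j → t ∈ S i → t ∈ S j → False := by
    intro i hi j hj hij a b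
    obtain ⟨_, _, -, r1⟩ := h3 i hi
    obtain ⟨_, _, -, r2⟩ := h3 j hj
    refine two_rows (K := K') (S := (S i)ᶜ) (S' := (S j)ᶜ) hR.rev r1 r2 (hW.mono (hPA i hi)).rev
      (hW.mono (hPA j hj)).rev ht (by simpa) (by simpa) ?_ ?_ ?_ ?_ ?_ ?_ <;> rw [cut_rev]
    exacts [c0 i hi, c0 j hj, c1 j hj i hi hij.symm, c1 i hi j hj hij, (hS i hi).2, (hS j hj).2]
  have m0 : 0 ∈ range (K' + 3) := by simp
  have m1 : 1 ∈ range (K' + 3) := by simp
  have m2 : 2 ∈ range (K' + 3) := by simp
  rcases typ 0 m0 with a | a <;> rcases typ 1 m1 with b | b <;> rcases typ 2 m2 with c | c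
  · exact k1 0 m0 1 m1 (by simp) a b
  · exact k1 0 m0 1 m1 (by simp) a b
  · exact k1 0 m0 2 m2 (by simp) a c
  · exact k2 1 m1 2 m2 (by simp) b c
  · exact k1 1 m1 2 m2 (by simp) b c
  · exact k2 0 m0 2 m2 (by simp) a c
  · exact k2 0 m0 1 m1 (by simp) a b
  · exact k2 0 m0 1 m1 (by simp) a b

theorem Feas.insert {ι : Type} [DecidableEq ι] {A F : Finset E} {dem : ι → V × V} {I : Finset ι}
    {i : ι} (h : G.Feas (A \ F) dem I) (hF : F ⊆ A) (hr : G.Reach F (dem i).1 (dem i).2) :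
    G.Feas A dem (insert i I) := by
  obtain ⟨F', h1, h2⟩ := h
  have hd : ∀ j ∈ Insert.insert i I, j ≠ i → Disjoint (F' j) F := fun j hj hji =>
    Disjoint.mono_left (h1 j ((mem_insert.1 hj).resolve_left hji)).1 sdiff_disjoint
  refine ⟨Function.update F' i F, fun j hj => ?_, fun j hj j' hj' hjj => ?_⟩
  · by_cases hji : j = i
    · subst hji
      simpa using ⟨hF, hr⟩
    · rw [Function.update_of_ne hji]
      have := h1 j ((mem_insert.1 hj).resolve_left hji)
      exact ⟨this.1.trans sdiff_subset, this.2⟩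
  · by_cases hji : j = i
    · subst hji
      rw [Function.update_self, Function.update_of_ne hjj.symm]
      exact (hd j' hj' hjj.symm).symm
    · by_cases hj'i : j' = i
      · subst hj'i
        rw [Function.update_self, Function.update_of_ne hji]
        exact hd j hj hji
      · rw [Function.update_of_ne hji, Function.update_of_ne hj'i]
        exact h2 j ((mem_insert.1 hj).resolve_left hji) j' ((mem_insert.1 hj').resolve_left hj'i)
          hjj

/-- If all demands are rich, they can be met. -/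
theorem all_rich {ι : Type} [DecidableEq ι] (k Δ : ℕ) : ∃ K : ℕ, ∀ (G : MG V E) (A : Finset E)
    (dem : ι → V × V) (I : Finset ι), I.card ≤ k → G.Rob A Δ → G.WF A →
    (∀ i ∈ I, (dem i).1 ∈ G.Vs ∧ (dem i).2 ∈ G.Vs ∧ G.Rich A K (dem i).1 (dem i).2) →
    G.Feas A dem I := by
  induction k generalizing Δ with
  | zero =>
    refine ⟨0, fun G A dem I hI _ _ _ => ?_⟩
    obtain rfl : I = ∅ := card_eq_zero.1 (by omega)
    exact ⟨fun _ => ∅, by simp, by simp⟩
  | succ k ih =>
    obtain ⟨K', hK'⟩ := ih (Δ + 2)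
    obtain ⟨K, hK⟩ := exists_good_path (V := V) (E := E) Δ K'
    refine ⟨K, fun G A dem I hI hA hW hd => ?_⟩
    rcases I.eq_empty_or_nonempty with rfl | ⟨i, hi⟩
    · exact ⟨fun _ => ∅, by simp, by simp⟩
    obtain ⟨l, h1, h2, h3, h4⟩ := hK G A _ _ hA hW (hd i hi).1 (hd i hi).2.1 (hd i hi).2.2
    have := hK' G (A \ l.toFinset) dem (I.erase i) (by rw [card_erase_of_mem hi]; omega)
      (hA.sdiff (h1.deg h3)) (hW.mono sdiff_subset) fun j hj => by
        have := hd j (mem_of_mem_erase hj)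
        exact ⟨this.1, this.2.1, h4 _ _ this.2.2⟩
    rw [← insert_erase hi]
    exact this.insert (fun e he => h2 e (List.mem_toFinset.1 he)) h1.reach

end MG

end Pool.Agent.P.MP_eb0bd2_lc
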