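import Pool.Agent.P.MP_eb0bd2_lc.Final
import Pool.Agent.P.MP_eb0bd2_lc.Defs

set_option autoImplicit false

namespace Pool.Agent.P.MP_eb0bd2_lc

open Relation Finset

theorem IsOutBranching.rtg {V : Type} {D B : Digraph V} {s : V} (h : IsOutBranching D B s)
    (v : V) : ReflTransGen B.Adj s v := by
  obtain ⟨-, h1, h2, h3⟩ := h
  have := (SimpleGraph.reachable_iff_reflTransGen _ _).1 (h1.connected s v)
  induction this with
  | refl => exact .refl
  | @tail u w _ h ih =>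
    rcases ((SimpleGraph.fromRel_adj _ _ _).1 h).2 with a | a
    · exact ih.tail a
    · rcases ih.cases_tail with rfl | ⟨x, b, c⟩
      · exact absurd a (h2 _)
      · rwa [(h3 u fun e => h2 _ (e ▸ a)).unique a c]

theorem exists_out {V : Type} [Finite V] {D : Digraph V} {r : V → V → Prop} {s : V}
    (hr : ∀ u v, r u v → D.Adj u v) (h : ∀ v, ReflTransGen r s v) :
    ∃ B : Digraph V, IsOutBranching D B s ∧ ∀ u v, B.Adj u v → r u v := by
  classical
  have := Fintype.ofFinite V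
  have : Nonempty (V × V) := ⟨(s, s)⟩
  obtain ⟨p, d, hp⟩ := MG.exists_tree (G := (⟨Prod.fst, Prod.snd, univ⟩ : MG V (V × V)))
    (H := univ.filter fun e => r e.1 e.2) (s := s) fun v _ => MG.reach_iff_rtg.2
      (rtg_mono (h v) fun a b hab => ⟨(a, b), by simpa using hab, rfl, rfl⟩)
  have h1 : ∀ v, v ≠ s → r (p v).1 v ∧ d (p v).1 < d v := fun v hv => by
    obtain ⟨a, b, c⟩ := hp v (mem_univ _) hv
    exact ⟨by simpa [show (p v).2 = v from b] using a, c⟩
  have h2 : ∀ u v, v ≠ s ∧ u = (p v).1 → r u v := by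
    rintro u v ⟨a, rfl⟩; exact (h1 v a).1
  refine ⟨⟨fun u v => v ≠ s ∧ u = (p v).1⟩, ⟨fun u v a => hr _ _ (h2 u v a), ?_,
    fun u a => a.1 rfl, fun v hv => ⟨(p v).1, ⟨hv, rfl⟩, fun u a => a.2⟩⟩, h2⟩
  set T := SimpleGraph.fromRel fun u v => v ≠ s ∧ u = (p v).1
  have hc : T.Connected := by
    refine (SimpleGraph.connected_iff_exists_forall_reachable _).2 ⟨s, fun v => ?_⟩
    induction hm : d v using Nat.strong_induction_on generalizing v with
    | _ m ih =>
      by_cases hv : v = s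
      · rw [hv]
      · refine (ih _ (hm ▸ (h1 v hv).2) _ rfl).trans (SimpleGraph.Adj.reachable ?_)
        exact (SimpleGraph.fromRel_adj _ _ _).2 ⟨fun e => by simpa [e] using (h1 v hv).2,
          Or.inl ⟨hv, rfl⟩⟩
  refine SimpleGraph.isTree_iff_connected_and_card.2 ⟨hc, le_antisymm ?_
    hc.card_vert_le_card_edgeSet_add_one⟩
  have : T.edgeSet ⊆ ((univ.erase s).image fun v => s((p v).1, v) : Finset (Sym2 V)) := by
    intro e he
    induction e using Sym2.ind with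
    | _ u v =>
      have he' : T.Adj u v := he
      rcases ((SimpleGraph.fromRel_adj _ _ _).1 he').2 with ⟨a, rfl⟩ | ⟨a, rfl⟩
      · exact mem_coe.2 (mem_image.2 ⟨v, by simpa using a, rfl⟩)
      · exact mem_coe.2 (mem_image.2 ⟨u, by simpa using a, Sym2.eq_swap⟩)
  have a1 := Set.ncard_le_ncard this
  rw [Set.ncard_coe_finset] at a1
  have a2 := card_image_le (s := univ.erase s) (f := fun v => s((p v).1, v))
  have a3 := card_erase_add_one (mem_univ s)
  rw [Nat.card_coe_set_eq, Nat.card_eq_fintype_card, ← card_univ]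
  omega

theorem isIn_iff {V : Type} {D B : Digraph V} {t : V} : IsInBranching D B t ↔
    IsOutBranching ⟨fun u v => D.Adj v u⟩ ⟨fun u v => B.Adj v u⟩ t := by
  have : (SimpleGraph.fromRel fun u v => B.Adj v u) = SimpleGraph.fromRel B.Adj := by
    ext u v; simp [or_comm]
  simp only [IsInBranching, IsOutBranching, this]
  exact and_congr_left' forall_comm

theorem goodPair_iff {V : Type} [Finite V] {D : Digraph V} {s t : V} : HasGoodPair D s t ↔
    ∃ r₁ r₂ : V → V → Prop, (∀ u v, r₁ u v → D.Adj u v) ∧ (∀ u v, r₂ u v → D.Adj u v) ∧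
      (∀ u v, ¬ (r₁ u v ∧ r₂ u v)) ∧ (∀ v, ReflTransGen r₁ s v) ∧ ∀ v, ReflTransGen r₂ v t := by
  constructor
  · rintro ⟨B₁, B₂, h1, h2, h3⟩
    exact ⟨B₁.Adj, B₂.Adj, h1.1, h2.1, h3, h1.rtg, fun v => MG.rtg_swap ((isIn_iff.1 h2).rtg v)⟩
  · rintro ⟨r₁, r₂, h1, h2, h3, h4, h5⟩
    obtain ⟨B₁, a1, a2⟩ := exists_out h1 h4
    obtain ⟨B₂, b1, b2⟩ := exists_out (D := ⟨fun u v => D.Adj v u⟩) (r := fun u v => r₂ v u)
      (fun u v => h2 v u) fun v => MG.rtg_swap (h5 v)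
    exact ⟨B₁, ⟨fun u v => B₂.Adj v u⟩, a1, isIn_iff.2 b1,
      fun u v h => h3 u v ⟨a2 _ _ h.1, b2 _ _ h.2⟩⟩

variable {n : ℕ} {D : Digraph (Fin n)} [DecidableRel D.Adj]

theorem length_adj : (adjMatrix D).length = n := by simp [adjMatrix]

theorem mem_arcs_adj {e : ℕ × ℕ × ℕ} :
    e ∈ arcs (adjMatrix D) ↔ ∃ u v : Fin n, D.Adj u v ∧ e = (0, u.1, v.1) := by
  obtain ⟨i, u, v⟩ := e
  rw [mem_arcs, length_adj]
  constructor
  · rintro ⟨rfl, h1, h2, h3⟩
    refine ⟨⟨u, h1⟩, ⟨v, h2⟩, ?_, rfl⟩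
    simp only at h1 h2
    simpa [adjMatrix, List.getD_eq_getElem?_getD, h1, h2] using h3
  · rintro ⟨u, v, h, e⟩
    obtain ⟨rfl, rfl, rfl⟩ : i = 0 ∧ _ = _ ∧ _ = _ := by simpa using e
    simpa [adjMatrix, List.getD_eq_getElem?_getD] using h

theorem rob_adj (hl : ∀ v, ¬ D.Adj v v) (hα : ∀ I, IsIndep D I → I.card ≤ 2) :
    (std (List.range (adjMatrix D).length).toFinset).Rob (arcs (adjMatrix D)).toFinset 0 := by
  refine ⟨fun _ => ∅, by simp, by simp, fun x hx y hy z hz a b c => ?_⟩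
  simp only [std_Vs, length_adj, List.mem_toFinset, List.mem_range] at hx hy hz
  lift x to Fin n using hx
  lift y to Fin n using hy
  lift z to Fin n using hz
  have m : ∀ u v : Fin n, D.Adj u v ∨ D.Adj v u → (std (List.range (adjMatrix D).length).toFinset).Nb
      (arcs (adjMatrix D)).toFinset (fun _ => ∅) u.1 v.1 := fun u v h => h.imp
    (fun h => ⟨_, List.mem_toFinset.2 (mem_arcs_adj.2 ⟨u, v, h, rfl⟩), rfl, rfl⟩)
    fun h => Or.inl ⟨_, List.mem_toFinset.2 (mem_arcs_adj.2 ⟨v, u, h, rfl⟩), rfl, rfl⟩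
  by_contra hc
  simp only [not_or] at hc
  have h1 := mt (m x y) hc.1
  have h2 := mt (m y z) hc.2.1
  have h3 := mt (m x z) hc.2.2
  have := hα {x, y, z} (by
    simp only [IsIndep, mem_insert, mem_singleton]
    rintro u (rfl | rfl | rfl) v (rfl | rfl | rfl) <;> first | exact hl _ | tauto)
  rw [card_eq_three.2 ⟨x, y, z, fun e => a (by rw [e]), fun e => c (by rw [e]),
    fun e => b (by rw [e]), rfl⟩] at this
  omega

theorem gp_adj {s t : Fin n} :
    (std (List.range (adjMatrix D).length).toFinset).GP (arcs (adjMatrix D)).toFinset s t ↔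
      HasGoodPair D s t := by
  classical
  rw [goodPair_iff]
  set G := std (List.range (adjMatrix D).length).toFinset
  have hv : ∀ v, v ∈ G.Vs ↔ v < n := by simp [G, length_adj]
  constructor
  · rintro ⟨H₁, a1, H₂, a2, a3, a4, a5⟩
    have k1 : ∀ H ⊆ (arcs (adjMatrix D)).toFinset, ∀ u v : Fin n, (0, u.1, v.1) ∈ H → D.Adj u v := by
      intro H hH u v h
      obtain ⟨u', v', b, e⟩ := mem_arcs_adj.1 (List.mem_toFinset.1 (hH h))
      obtain ⟨rfl, rfl⟩ : u = u' ∧ v = v' := by simpa [Fin.ext_iff] using e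
      exact b
    have k2 : ∀ H ⊆ (arcs (adjMatrix D)).toFinset, ∀ u v : Fin n, G.Reach H u v →
        ReflTransGen (fun u v : Fin n => (0, u.1, v.1) ∈ H) u v := by
      intro H hH u v h
      refine h.induction (fun x => ∀ v : Fin n, v.1 = x →
        ReflTransGen (fun u v : Fin n => (0, u.1, v.1) ∈ H) u v) ?_ ?_ v rfl
      · intro w e
        rw [Fin.ext e]
      · intro e he ih w e'
        obtain ⟨u', v', -, rfl⟩ := mem_arcs_adj.1 (List.mem_toFinset.1 (hH he))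
        obtain rfl : w = v' := Fin.ext e'
        exact (ih u' rfl).tail he
    exact ⟨_, _, k1 H₁ a1, k1 H₂ a2, fun u v h => disjoint_left.1 a3 h.1 h.2,
      fun v => k2 H₁ a1 _ _ (a4 _ ((hv _).2 v.2)), fun v => k2 H₂ a2 _ _ (a5 _ ((hv _).2 v.2))⟩
  · rintro ⟨r₁, r₂, a1, a2, a3, a4, a5⟩
    let H : (Fin n → Fin n → Prop) → Finset (ℕ × ℕ × ℕ) := fun r =>
      (arcs (adjMatrix D)).toFinset.filter fun e => ∃ u v : Fin n, r u v ∧ e = (0, u.1, v.1)
    have k : ∀ r : Fin n → Fin n → Prop, (∀ u v, r u v → D.Adj u v) → ∀ u v,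
        ReflTransGen r u v → G.Reach (H r) u v := by
      intro r hr u v h
      induction h with
      | refl => exact MG.Reach.refl _ _
      | @tail x y _ h ih =>
        exact ih.trans (MG.Reach.single (G := G) (e := (0, x.1, y.1)) (mem_filter.2
          ⟨List.mem_toFinset.2 (mem_arcs_adj.2 ⟨x, y, hr _ _ h, rfl⟩), x, y, h, rfl⟩))
    refine ⟨H r₁, filter_subset _ _, H r₂, filter_subset _ _, disjoint_left.2 fun e b c => ?_,
      fun v h => k r₁ a1 s ⟨v, (hv v).1 h⟩ (a4 _), fun v h => k r₂ a2 ⟨v, (hv v).1 h⟩ t (a5 _)⟩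
    obtain ⟨u, v, b', rfl⟩ := (mem_filter.1 b).2
    obtain ⟨u', v', c', e⟩ := (mem_filter.1 c).2
    obtain ⟨rfl, rfl⟩ : u = u' ∧ v = v' := by simpa [Fin.ext_iff] using e
    exact a3 u v ⟨b', c'⟩

theorem main : ∃ f : List (List Bool) × ℕ × ℕ → Bool, N68a2faeb.IsPolyTime f ∧
    ∀ (n : ℕ) (D : Digraph (Fin n)) [DecidableRel D.Adj] (s t : Fin n), (∀ v, ¬ D.Adj v v) →
      (∀ I, IsIndep D I → I.card ≤ 2) →
      (f (adjMatrix D, s.1, t.1) = true ↔ HasGoodPair D s t) := by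
  obtain ⟨f, h1, h2⟩ := exists_alg
  exact ⟨f, h1.isPolyTime, fun n D _ s t a b => (h2 _ _ _ (rob_adj a b)
    (by rw [length_adj]; exact s.2) (by rw [length_adj]; exact t.2)).trans gp_adj⟩

end Pool.Agent.P.MP_eb0bd2_lc
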