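import Pool.Agent.P.MP_eb0bd2_lc.Algo

set_option autoImplicit false

namespace Pool.Agent.P.MP_eb0bd2_lc

open Pool.Agent.Lib.PolyTime Relation Finset

/-- The test run on one guess. -/
def Test (K B : ℕ) (Vs : Finset ℕ) (A : Finset (ℕ × ℕ × ℕ)) (s t : ℕ) (X Y : Finset ℕ)
    (Φ₁ Φ₂ : Finset (ℕ × ℕ × ℕ)) (D₁ D₂ : List (ℕ × ℕ)) : Prop :=
  (std Vs).Perc A Φ₂ X ∧ (std Vs).rev.Perc A Φ₁ Y ∧
  (∀ x ∈ X, ReflTransGen (fun a b => (a, b) ∈ D₁ ∨ (std Vs).Arc ((A ∩ Φ₂) \ Φ₁) a b) s x) ∧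
  (∀ y ∈ Y, ReflTransGen (fun a b => (a, b) ∈ D₂ ∨ (std Vs).Arc ((A ∩ Φ₁) \ Φ₂) a b) y t) ∧
  DPok 6956 K B Vs (A \ (Φ₁ ∪ Φ₂)) (D₁ ++ D₂) (s, s)

/-- All pairs over a list. -/
def prs (vs : List ℕ) : List (ℕ × ℕ) := vs.flatMap fun u => vs.map fun v => (u, v)

theorem mem_prs {vs : List ℕ} {p : ℕ × ℕ} : p ∈ prs vs ↔ p.1 ∈ vs ∧ p.2 ∈ vs := by
  obtain ⟨u, v⟩ := p
  simp [prs]

/-- The algorithm accepts. -/
def Acc (K B : ℕ) (vs : List ℕ) (A : List (ℕ × ℕ × ℕ)) (s t : ℕ) : Prop :=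
  ∃ X ∈ tuples 28 vs, ∃ Y ∈ tuples 28 vs, ∃ Φ₁ ∈ tuples 3422 A, ∃ Φ₂ ∈ tuples 3422 A,
    ∃ D₁ ∈ tuples 3478 (prs vs), ∃ D₂ ∈ tuples 3478 (prs vs),
      Test K B vs.toFinset A.toFinset s t X.toFinset Y.toFinset Φ₁.toFinset Φ₂.toFinset D₁ D₂

theorem exists_acc : ∃ K B : ℕ, ∀ (vs : List ℕ) (A : List (ℕ × ℕ × ℕ)) (s t : ℕ),
    (std vs.toFinset).WF A.toFinset → (std vs.toFinset).Rob A.toFinset 0 → (∀ e ∈ A, e.1 = 0) →
    s ∈ vs → t ∈ vs → (Acc K B vs A s t ↔ (std vs.toFinset).GP A.toFinset s t) := by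
  obtain ⟨K, B, h⟩ := dp_correct (V := ℕ) 6956 6844
  refine ⟨K, B, fun vs A s t hW hR h0 hs ht => ?_⟩
  have key : ∀ (X Y : Finset ℕ) (Φ₁ Φ₂ : Finset (ℕ × ℕ × ℕ)) (D₁ D₂ : List (ℕ × ℕ)),
      Φ₁.card ≤ 3422 → Φ₂.card ≤ 3422 → D₁ ∈ tuples 3478 (prs vs) → D₂ ∈ tuples 3478 (prs vs) →
      (Test K B vs.toFinset A.toFinset s t X Y Φ₁ Φ₂ D₁ D₂ ↔
        (std vs.toFinset).Red A.toFinset s t X Y Φ₁ Φ₂ D₁ D₂) := by
    intro X Y Φ₁ Φ₂ D₁ D₂ c1 c2 d1 d2
    obtain ⟨d1, e1⟩ := mem_tuples.1 d1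
    obtain ⟨d2, e2⟩ := mem_tuples.1 d2
    refine and_congr_right fun _ => and_congr_right fun _ => and_congr_right fun _ =>
      and_congr_right fun _ => (h _ _ _ _ (by simp; omega) ?_ (hW.mono sdiff_subset)
        (fun e he => h0 e (List.mem_toFinset.1 (mem_sdiff.1 he).1)) fun i hi => ?_).symm
    · simpa using hR.sdiff ((MG.deg_card (Φ₁ ∪ Φ₂)).of_le
        ((card_union_le _ _).trans (by omega : _ ≤ 6844)))
    · have : (D₁ ++ D₂).getD i (s, s) ∈ D₁ ++ D₂ := by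
        rw [List.getD_eq_getElem _ _ hi]
        exact List.getElem_mem hi
      simpa [mem_prs] using (List.mem_append.1 this).elim (e1 _) (e2 _)
  constructor
  · rintro ⟨X, a1, Y, a2, Φ₁, a3, Φ₂, a4, D₁, a5, D₂, a6, a⟩
    exact ((key _ _ _ _ _ _ ((List.toFinset_card_le _).trans (mem_tuples.1 a3).1)
      ((List.toFinset_card_le _).trans (mem_tuples.1 a4).1) a5 a6).1 a).gp hW
      ((List.toFinset_card_le _).trans (mem_tuples.1 a1).1)
      ((List.toFinset_card_le _).trans (mem_tuples.1 a2).1)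
  · intro a
    obtain ⟨X, Y, Φ₁, Φ₂, D₁, D₂, a1, a2, a3, a4, a5, a6, a7, a8, a9, b1, b2, b3, b4⟩ :=
      a.red hW hR (by simpa using hs) (by simpa using ht)
    have c1 : D₁ ∈ tuples 3478 (prs vs) :=
      mem_tuples.2 ⟨a9, fun p hp => mem_prs.2 (by simpa using b2 p hp)⟩
    have c2 : D₂ ∈ tuples 3478 (prs vs) :=
      mem_tuples.2 ⟨b1, fun p hp => mem_prs.2 (by simpa using b3 p hp)⟩
    refine ⟨X.toList, mem_tuples.2 ⟨by simpa using a3, fun x hx => ?_⟩,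
      Y.toList, mem_tuples.2 ⟨by simpa using a4, fun x hx => ?_⟩,
      Φ₁.toList, mem_tuples.2 ⟨by simpa using a7, fun x hx => ?_⟩,
      Φ₂.toList, mem_tuples.2 ⟨by simpa using a8, fun x hx => ?_⟩, D₁, c1, D₂, c2, ?_⟩
    · simpa using a1 (mem_toList.1 hx)
    · simpa using a2 (mem_toList.1 hx)
    · simpa using a5 (mem_toList.1 hx)
    · simpa using a6 (mem_toList.1 hx)
    · simp only [toList_toFinset]
      exact (key _ _ _ _ _ _ a7 a8 c1 c2).2 b4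

variable {α : Type} [N487b59b3 α]

@[fun_prop] theorem pt_prs {vs : α → List ℕ} (hv : PT vs) : PT fun a => prs (vs a) := by
  unfold prs; fun_prop

theorem ptp_link (Vs : α → Finset ℕ) {A Φ Ψ : α → List (ℕ × ℕ × ℕ)} {D : α → List (ℕ × ℕ)}
    {x y : α → ℕ} (hA : PT A) (hΦ : PT Φ) (hΨ : PT Ψ) (hD : PT D) (hx : PT x) (hy : PT y) :
    PTP fun a => ReflTransGen (fun u v => (u, v) ∈ D a ∨
      (std (Vs a)).Arc (((A a).toFinset ∩ (Φ a).toFinset) \ (Ψ a).toFinset) u v) (x a) (y a) := by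
  refine ptp_rtg (l := fun a => (D a).map (·.2) ++ (A a).map (·.2.2)) (by fun_prop) hx hy
    (PTP.or (by fun_prop) ((PTP.exists_mem (l := fun q : α × ℕ × ℕ => A q.1)
      (p := fun q e => e ∈ Φ q.1 ∧ e ∉ Ψ q.1 ∧ e.2.1 = q.2.1 ∧ e.2.2 = q.2.2) (by fun_prop)
      (by fun_prop)).congr fun q => by simp [MG.Arc, and_assoc])) ?_
  rintro a u v (h | ⟨e, he, -, rfl⟩)
  · exact List.mem_append_left _ (List.mem_map.2 ⟨_, h, rfl⟩)
  · exact List.mem_append_right _ (List.mem_map.2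
      ⟨e, List.mem_toFinset.1 (mem_inter.1 (mem_sdiff.1 he).1).1, rfl⟩)

theorem ptp_test (K B : ℕ) {vs X Y : α → List ℕ} {A Φ₁ Φ₂ : α → List (ℕ × ℕ × ℕ)}
    {D₁ D₂ : α → List (ℕ × ℕ)} {s t : α → ℕ} (hv : PT vs) (hX : PT X) (hY : PT Y) (hA : PT A)
    (h1 : PT Φ₁) (h2 : PT Φ₂) (h3 : PT D₁) (h4 : PT D₂) (hs : PT s) (ht : PT t)
    (hW : ∀ a, (std (vs a).toFinset).WF (A a).toFinset) :
    PTP fun a => Test K B (vs a).toFinset (A a).toFinset (s a) (t a) (X a).toFinset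
      (Y a).toFinset (Φ₁ a).toFinset (Φ₂ a).toFinset (D₁ a) (D₂ a) := by
  refine PTP.and (ptp_perc hv hX hA h2 (fun _ => rfl) (by simp only [std_src]; fun_prop)
    (by simp only [std_tgt]; fun_prop) hW) (PTP.and (ptp_perc hv hY hA h1 (fun _ => rfl)
      (by simp only [MG.rev_src, std_tgt]; fun_prop)
      (by simp only [MG.rev_tgt, std_src]; fun_prop) fun a => (hW a).rev) (PTP.and ?_
      (PTP.and ?_ ?_)))
  · simp only [List.mem_toFinset]
    exact PTP.forall_mem hX (ptp_link (fun q : α × ℕ => (vs q.1).toFinset) (by fun_prop)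
      (by fun_prop) (by fun_prop) (by fun_prop) (by fun_prop) (by fun_prop))
  · simp only [List.mem_toFinset]
    exact PTP.forall_mem hY (ptp_link (fun q : α × ℕ => (vs q.1).toFinset) (by fun_prop)
      (by fun_prop) (by fun_prop) (by fun_prop) (by fun_prop) (by fun_prop))
  · refine (ptp_dpok 6956 K B (A := fun a => (A a).filter fun e => decide (e ∉ Φ₁ a ∧ e ∉ Φ₂ a))
      (D := fun a => D₁ a ++ D₂ a) (d := fun a => (s a, s a)) hv (by fun_prop) (by fun_prop)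
      (by fun_prop)).congr fun a => ?_
    rw [iff_iff_eq]
    congr 1
    ext e
    simp

theorem ptp_acc (K B : ℕ) {vs : α → List ℕ} {A : α → List (ℕ × ℕ × ℕ)} {s t : α → ℕ} (hv : PT vs)
    (hA : PT A) (hs : PT s) (ht : PT t) (hW : ∀ a, (std (vs a).toFinset).WF (A a).toFinset) :
    PTP fun a => Acc K B (vs a) (A a) (s a) (t a) := by
  refine PTP.exists_mem (by fun_prop) (PTP.exists_mem (by fun_prop) (PTP.exists_mem (by fun_prop)
    (PTP.exists_mem (by fun_prop) (PTP.exists_mem (by fun_prop) (PTP.exists_mem (by fun_prop)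
      (ptp_test K B (by fun_prop) (by fun_prop) (by fun_prop) (by fun_prop) (by fun_prop)
        (by fun_prop) (by fun_prop) (by fun_prop) (by fun_prop) (by fun_prop) fun _ => hW _))))))

/-- The arcs of a Boolean matrix. -/
def arcs (M : List (List Bool)) : List (ℕ × ℕ × ℕ) :=
  (List.range M.length).flatMap fun u =>
    ((List.range M.length).filter fun v => (M.getD u []).getD v false).map fun v => (0, u, v)

theorem mem_arcs {M : List (List Bool)} {e : ℕ × ℕ × ℕ} : e ∈ arcs M ↔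
    e.1 = 0 ∧ e.2.1 < M.length ∧ e.2.2 < M.length ∧ (M.getD e.2.1 []).getD e.2.2 false = true := by
  obtain ⟨i, u, v⟩ := e
  simp only [arcs, List.mem_flatMap, List.mem_map, List.mem_filter, List.mem_range, Prod.mk.injEq]
  constructor
  · rintro ⟨u, h1, v, ⟨h2, h3⟩, rfl, rfl, rfl⟩
    exact ⟨rfl, h1, h2, h3⟩
  · rintro ⟨rfl, h1, h2, h3⟩
    exact ⟨u, h1, v, ⟨h2, h3⟩, rfl, rfl, rfl⟩

theorem wf_arcs (M : List (List Bool)) :
    (std (List.range M.length).toFinset).WF (arcs M).toFinset := fun e he => by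
  have := mem_arcs.1 (List.mem_toFinset.1 he)
  simp [this.2.1, this.2.2.1]

theorem exists_alg : ∃ f : List (List Bool) × ℕ × ℕ → Bool, PT f ∧
    ∀ (M : List (List Bool)) (s t : ℕ),
      (std (List.range M.length).toFinset).Rob (arcs M).toFinset 0 → s < M.length →
      t < M.length →
      (f (M, s, t) = true ↔ (std (List.range M.length).toFinset).GP (arcs M).toFinset s t) := by
  obtain ⟨K, B, h⟩ := exists_acc
  obtain ⟨f, h1, h2⟩ := ptp_acc K B (vs := fun a : List (List Bool) × ℕ × ℕ =>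
    List.range a.1.length) (A := fun a => arcs a.1) (s := fun a => a.2.1) (t := fun a => a.2.2)
    (by fun_prop) (by unfold arcs; fun_prop) (by fun_prop) (by fun_prop) fun a => wf_arcs _
  exact ⟨f, h1, fun M s t a b c => (h2 _).trans (h _ _ _ _ (wf_arcs M) a
    (fun e he => (mem_arcs.1 he).1) (List.mem_range.2 b) (List.mem_range.2 c))⟩

end Pool.Agent.P.MP_eb0bd2_lc
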