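import Pool.Agent.P.MP_eb0bd2_lc.AllRich

set_option autoImplicit false
set_option linter.unusedSectionVars false

namespace Pool.Agent.P.MP_eb0bd2_lc

open Finset

theorem exists_first {E : Type} (p : E → Prop) (l : List E) :
    (∀ e ∈ l, ¬ p e) ∨ ∃ l₁ a l₂, l = l₁ ++ a :: l₂ ∧ p a ∧ ∀ e ∈ l₁, ¬ p e := by
  induction l with
  | nil => simp
  | cons x l ih =>
    by_cases hx : p x
    · exact Or.inr ⟨[], x, l, rfl, hx, by simp⟩
    · rcases ih with h | ⟨l₁, a, l₂, rfl, h1, h2⟩
      · exact Or.inl (by simpa using ⟨hx, h⟩)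
      · exact Or.inr ⟨x :: l₁, a, l₂, rfl, h1, by simpa using ⟨hx, h2⟩⟩

theorem exists_last {E : Type} (p : E → Prop) (l : List E) :
    (∀ e ∈ l, ¬ p e) ∨ ∃ l₁ a l₂, l = l₁ ++ a :: l₂ ∧ p a ∧ ∀ e ∈ l₂, ¬ p e := by
  rcases exists_first p l.reverse with h | ⟨l₁, a, l₂, e, h1, h2⟩
  · exact Or.inl (by simpa using h)
  · refine Or.inr ⟨l₂.reverse, a, l₁.reverse, ?_, h1, by simpa using h2⟩
    simpa using congrArg List.reverse e

namespace MG

variable {V E : Type} {G : MG V E} [DecidableEq V] [DecidableEq E]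

theorem Walk.free_middle {x y : V} {l : List E} (h : G.Walk x y l) (hn : l.Nodup) (p : E → Prop) :
    ∃ (x' y' : V) (Fr Kp Ex : Finset E), Fr ⊆ l.toFinset ∧ Kp ⊆ l.toFinset ∧ Disjoint Fr Kp ∧
      Ex.card ≤ 2 ∧ (∀ e ∈ l, p e → e ∈ Fr ∨ e ∈ Ex) ∧ G.Reach Kp x x' ∧ G.Reach Kp y' y ∧
      ((x' = y ∧ y' = y) ∨ ∃ a ∈ l, ∃ b ∈ l, p a ∧ p b ∧ x' = G.tgt a ∧ y' = G.src b) := by
  rcases exists_first p l with h0 | ⟨l₁, a, r, rfl, ha, h1⟩
  · exact ⟨y, y, ∅, l.toFinset, ∅, by simp, by simp, by simp, by simp,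
      fun e he hp => absurd hp (h0 e he), h.reach, Reach.refl _ _, Or.inl ⟨rfl, rfl⟩⟩
  rcases exists_last p r with h0 | ⟨l₂, b, l₃, rfl, hb, h2⟩
  · refine ⟨y, y, ∅, (l₁ ++ a :: r).toFinset, {a}, by simp, by simp, by simp, by simp,
      fun e he hp => Or.inr ?_, h.reach, Reach.refl _ _, Or.inl ⟨rfl, rfl⟩⟩
    simp only [List.mem_append, List.mem_cons] at he
    rcases he with he | rfl | he
    exacts [absurd hp (h1 e he), mem_singleton_self _, absurd hp (h0 e he)]
  obtain ⟨w1, w2⟩ := h.split_arc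
  obtain ⟨-, w3⟩ := w2.split_arc
  refine ⟨G.tgt a, G.src b, l₂.toFinset, (l₁ ++ a :: b :: l₃).toFinset, {a, b}, ?_, ?_, ?_,
    card_le_two, fun e he hp => ?_, ?_, ?_, Or.inr ⟨a, by simp, b, by simp, ha, hb, rfl, rfl⟩⟩
  · intro e; simp only [List.mem_toFinset, List.mem_append, List.mem_cons]; tauto
  · intro e; simp only [List.mem_toFinset, List.mem_append, List.mem_cons]; tauto
  · rw [disjoint_left]
    intro e he he'
    simp only [List.nodup_append, List.nodup_cons, List.mem_append, List.mem_cons,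
      List.mem_toFinset] at hn he he'
    rcases he' with he' | rfl | rfl | he'
    · exact hn.2.2 e he' e (Or.inr (Or.inl he)) rfl
    · exact hn.2.1.1 (Or.inl he)
    · exact hn.2.1.2.2.2 e he e (Or.inl rfl) rfl
    · exact hn.2.1.2.2.2 e he e (Or.inr he') rfl
  · simp only [List.mem_append, List.mem_cons, List.mem_toFinset, mem_insert,
      mem_singleton] at he ⊢
    have := h1 e
    have := h2 e
    tauto
  · exact ⟨l₁ ++ [a], w1.append (Walk.single a), fun e he => by
      simp only [List.mem_toFinset, List.mem_append, List.mem_cons] at he ⊢; tauto⟩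
  · exact ⟨b :: l₃, Walk.cons b _ _ w3, fun e he => by
      simp only [List.mem_toFinset, List.mem_append, List.mem_cons] at he ⊢; tauto⟩

theorem Feas.exists_paths {ι : Type} {A : Finset E} {dem : ι → V × V} {I : Finset ι}
    (h : G.Feas A dem I) : ∃ P : ι → List E,
      (∀ i ∈ I, G.Walk (dem i).1 (dem i).2 (P i) ∧ (∀ e ∈ P i, e ∈ A) ∧
        (G.verts (dem i).1 (P i)).Nodup) ∧
      ∀ i ∈ I, ∀ j ∈ I, i ≠ j → Disjoint (P i).toFinset (P j).toFinset := by
  obtain ⟨F, h1, h2⟩ := h
  have : ∀ i, ∃ l, i ∈ I → G.Walk (dem i).1 (dem i).2 l ∧ (∀ e ∈ l, e ∈ F i) ∧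
      (G.verts (dem i).1 l).Nodup := by
    intro i
    by_cases hi : i ∈ I
    · obtain ⟨l, hl⟩ := (h1 i hi).2.exists_simple
      exact ⟨l, fun _ => hl⟩
    · exact ⟨[], fun h => absurd h hi⟩
  choose P hP using this
  refine ⟨P, fun i hi => ⟨(hP i hi).1, fun e he => (h1 i hi).1 ((hP i hi).2.1 e he),
    (hP i hi).2.2⟩, fun i hi j hj hij => (h2 i hi j hj hij).mono ?_ ?_⟩
  · exact fun e he => (hP i hi).2.1 e (List.mem_toFinset.1 he)
  · exact fun e he => (hP j hj).2.1 e (List.mem_toFinset.1 he)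

/-- A mutually rich pair can be added to a feasible family of demands. -/
theorem add_rich {ι : Type} [DecidableEq ι] (k Δ : ℕ) : ∃ K : ℕ, ∀ (G : MG V E) (A : Finset E)
    (dem : ι → V × V) (I : Finset ι) (j : ι), I.card ≤ k → j ∉ I → G.Rob A Δ → G.WF A →
    (∀ i ∈ insert j I, (dem i).1 ∈ G.Vs ∧ (dem i).2 ∈ G.Vs) → G.Feas A dem I →
    G.Rich A K (dem j).1 (dem j).2 → G.Rich A K (dem j).2 (dem j).1 →
    G.Feas A dem (insert j I) := by
  classical
  obtain ⟨K₁, hK₁⟩ := all_rich (V := V) (E := E) (ι := ι) (k + 1) (Δ + k * 2)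
  set w := wd (Δ + k * 2) K₁ with hw
  refine ⟨w * w * K₁ + w * w * (K₁ + k * 2) + 1,
    fun G A dem I j hI hj hA hW hd hF huv hvu => ?_⟩
  obtain ⟨P, h1, h2⟩ := hF.exists_paths
  set U := I.biUnion fun i => (P i).toFinset with hU
  have hPA : ∀ i ∈ I, (P i).toFinset ⊆ A := fun i hi e he => (h1 i hi).2.1 e (List.mem_toFinset.1 he)
  have hUA : U ⊆ A := biUnion_subset.2 hPA
  have hR : G.Rob (A \ U) (Δ + k * 2) :=
    hA.sdiff ((deg_biUnion fun i hi => (h1 i hi).1.deg (h1 i hi).2.2).of_le (by omega))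
  let Γ : V → V → Prop := fun x y => G.Rich (A \ U) K₁ x y ∨ ∃ B ⊆ U, K₁ + k * 2 < B.card ∧
    ∀ e ∈ B, G.Rich (A \ U) K₁ x (G.src e) ∧ G.Rich (A \ U) K₁ (G.tgt e) y
  have claim : ∀ x y, G.Rich A (w * w * K₁ + w * w * (K₁ + k * 2) + 1) x y →
      Relation.ReflTransGen Γ x y := by
    intro x y hxy
    by_contra hc
    let S : Set V := {z | Relation.ReflTransGen Γ x z}
    have a1 := hxy S Relation.ReflTransGen.refl hc
    have a2 := card_cut_le_add (G := G) A U S
    have a3 := hR.card_cut_le_of_closed (hW.mono sdiff_subset) K₁ S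
      fun g _ hg g' _ hr => Relation.ReflTransGen.tail hg (Or.inl hr)
    have a4 := hR.card_cut_le (hW.mono hUA) K₁ (K₁ + k * 2) S fun g _ hg g' _ hg' B hB hr => by
      by_contra hlt
      exact hg' (Relation.ReflTransGen.tail hg (Or.inr ⟨B, hB, by omega, hr⟩))
    rw [← hw] at a3 a4
    omega
  set u := (dem j).1 with hu
  let M : V → Prop := fun x => Relation.ReflTransGen Γ u x ∧ Relation.ReflTransGen Γ x u
  let p : E → Prop := fun e => (∃ x, M x ∧ G.Rich (A \ U) K₁ x (G.src e)) ∧
    ∃ y, M y ∧ G.Rich (A \ U) K₁ (G.tgt e) y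
  have hex : ∀ i, ∃ (x' y' : V) (Fr Kp Ex : Finset E), i ∈ I → Fr ⊆ (P i).toFinset ∧
      Kp ⊆ (P i).toFinset ∧ Disjoint Fr Kp ∧ Ex.card ≤ 2 ∧ (∀ e ∈ P i, p e → e ∈ Fr ∨ e ∈ Ex) ∧
      G.Reach Kp (dem i).1 x' ∧ G.Reach Kp y' (dem i).2 ∧ ((x' = (dem i).2 ∧ y' = (dem i).2) ∨
        ∃ a ∈ P i, ∃ b ∈ P i, p a ∧ p b ∧ x' = G.tgt a ∧ y' = G.src b) := by
    intro i
    by_cases hi : i ∈ I
    · obtain ⟨x', y', Fr, Kp, Ex, h⟩ := (h1 i hi).1.free_middle (nodup_of_verts (h1 i hi).2.2) p
      exact ⟨x', y', Fr, Kp, Ex, fun _ => h⟩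
    · exact ⟨u, u, ∅, ∅, ∅, fun h => absurd h hi⟩
  choose x' y' Fr Kp Ex hx using hex
  set A₁ := A \ I.biUnion Kp with hA₁
  have s1 : A \ U ⊆ A₁ := sdiff_subset_sdiff Subset.rfl (biUnion_mono fun i hi => (hx i hi).2.1)
  have s2 : ∀ i ∈ I, Fr i ⊆ A₁ := by
    intro i hi
    refine subset_sdiff.2 ⟨(hx i hi).1.trans (hPA i hi), (disjoint_biUnion_right _ _ _).2
      fun i' hi' => ?_⟩
    by_cases e : i = i'
    · exact e ▸ (hx i hi).2.2.1
    · exact (h2 i hi i' hi' e).mono (hx i hi).1 (hx i' hi').2.1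
  have r1 : ∀ x y, M x → M y → Γ x y → G.Rich A₁ K₁ x y := by
    rintro x y mx my (h | ⟨B, hB, hc, hr⟩)
    · exact h.mono s1
    · intro S hxS hyS
      by_contra hlt
      have hlt' : (G.cut (A \ U) S).card < K₁ :=
        lt_of_le_of_lt (card_le_card (cut_mono s1 S)) (not_le.1 hlt)
      have b1 : B \ I.biUnion Ex ⊆ G.cut A₁ S := by
        intro e he
        obtain ⟨heB, he'⟩ := mem_sdiff.1 he
        obtain ⟨i, hi, hei⟩ := mem_biUnion.1 (hB heB)
        refine mem_cut.2 ⟨?_, ?_, fun hc => ?_⟩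
        · rcases (hx i hi).2.2.2.2.1 e (List.mem_toFinset.1 hei)
            ⟨⟨x, mx, (hr e heB).1⟩, ⟨y, my, (hr e heB).2⟩⟩ with a | a
          · exact s2 i hi a
          · exact absurd (mem_biUnion.2 ⟨i, hi, a⟩) he'
        · by_contra hc
          exact absurd ((hr e heB).1 S hxS hc) (not_le.2 hlt')
        · exact absurd ((hr e heB).2 S hc hyS) (not_le.2 hlt')
      have b2 := card_le_card b1
      have b3 := le_card_sdiff (I.biUnion Ex) B
      have b4 := card_biUnion_le_card_mul I Ex 2 fun i hi => (hx i hi).2.2.2.1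
      omega
  have r2 : ∀ x y, M x → Relation.ReflTransGen Γ x y → M y → G.Rich A₁ K₁ x y := by
    intro x y mx h
    induction h with
    | refl => exact fun _ => Rich.refl _ _ _
    | tail h h' ih =>
      intro my
      have mb : M _ := ⟨mx.1.trans h, (Relation.ReflTransGen.single h').trans my.2⟩
      exact (ih mb).trans (r1 _ _ mb my h')
  have r3 : ∀ x y, M x → M y → G.Rich A₁ K₁ x y := fun x y mx my => r2 x y mx (mx.2.trans my.1) my
  obtain ⟨F, g1, g2⟩ := hK₁ G A₁ (fun i => if i = j then dem j else (x' i, y' i)) (insert j I)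
    (by rw [card_insert_of_notMem hj]; omega) (hR.mono s1) (hW.mono sdiff_subset) fun i hi => by
      by_cases e : i = j
      · simp only [e, if_true]
        have := hd j (mem_insert_self _ _)
        exact ⟨this.1, this.2, r3 _ _ ⟨Relation.ReflTransGen.refl, Relation.ReflTransGen.refl⟩
          ⟨claim _ _ huv, claim _ _ hvu⟩⟩
      · simp only [e, if_false]
        have hi' := (mem_insert.1 hi).resolve_left e
        rcases (hx i hi').2.2.2.2.2.2.2 with ⟨a, b⟩ | ⟨a, ha, b, hb, pa, pb, e1, e2⟩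
        · rw [a, b]
          exact ⟨(hd i hi).2, (hd i hi).2, Rich.refl _ _ _⟩
        · rw [e1, e2]
          obtain ⟨y, my, hy⟩ := pa.2
          obtain ⟨x, mx, hx'⟩ := pb.1
          exact ⟨(hW a ((h1 i hi').2.1 a ha)).2, (hW b ((h1 i hi').2.1 b hb)).1,
            ((hy.mono s1).trans (r3 _ _ my mx)).trans (hx'.mono s1)⟩
  have dK : ∀ i ∈ insert j I, ∀ i' ∈ I, Disjoint (F i) (Kp i') := fun i hi i' hi' =>
    Disjoint.mono (g1 i hi).1 (subset_biUnion_of_mem Kp hi') sdiff_disjoint
  refine ⟨fun i => if i = j then F i else F i ∪ Kp i, fun i hi => ?_, fun i hi i' hi' hii => ?_⟩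
  · have := g1 i hi
    by_cases e : i = j
    · simp only [e, if_true] at this ⊢
      exact ⟨this.1.trans sdiff_subset, this.2⟩
    · simp only [e, if_false] at this ⊢
      have hi' := (mem_insert.1 hi).resolve_left e
      exact ⟨union_subset (this.1.trans sdiff_subset) ((hx i hi').2.1.trans (hPA i hi')),
        (((hx i hi').2.2.2.2.2.1.mono subset_union_right).trans
          (this.2.mono subset_union_left)).trans
          ((hx i hi').2.2.2.2.2.2.1.mono subset_union_right)⟩
  · have a0 := g2 i hi i' hi' hii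
    by_cases e : i = j <;> by_cases e' : i' = j
    · exact absurd (e.trans e'.symm) hii
    · simp only [if_pos e, if_neg e', disjoint_union_right]
      exact ⟨a0, dK i hi i' ((mem_insert.1 hi').resolve_left e')⟩
    · simp only [if_pos e', if_neg e, disjoint_union_left]
      exact ⟨a0, (dK i' hi' i ((mem_insert.1 hi).resolve_left e)).symm⟩
    · have m := (mem_insert.1 hi).resolve_left e
      have m' := (mem_insert.1 hi').resolve_left e'
      simp only [if_neg e', if_neg e, disjoint_union_left, disjoint_union_right]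
      exact ⟨⟨a0, (dK i' hi' i m).symm⟩, dK i hi i' m',
        (h2 i m i' m' hii).mono (hx i m).2.1 (hx i' m').2.1⟩

/-- Extra arcs between mutually rich vertices do not help. -/
theorem lift_tele {ι : Type} [DecidableEq ι] (k Δ : ℕ) : ∃ K : ℕ, ∀ (G : MG V E) (A T : Finset E)
    (dem : ι → V × V) (I : Finset ι), I.card ≤ k → G.Rob A Δ → G.WF A → G.WF T →
    (∀ i ∈ I, (dem i).1 ∈ G.Vs ∧ (dem i).2 ∈ G.Vs) →
    (∀ e ∈ T, G.Rich A K (G.src e) (G.tgt e) ∧ G.Rich A K (G.tgt e) (G.src e)) →
    G.Feas (A ∪ T) dem I → G.Feas A dem I := by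
  obtain ⟨K, hK⟩ := add_rich (V := V) (E := E) (ι := ι ⊕ Bool) (k + 1) Δ
  refine ⟨K, fun G A T dem I hI hA hW hT hd hr hF => ?_⟩
  induction T using Finset.induction_on with
  | empty => simpa using hF
  | insert e T heT ih =>
    refine ih (hT.mono (subset_insert _ _)) (fun f hf => hr f (mem_insert_of_mem hf)) ?_
    have hWT : G.WF (A ∪ T) := fun f hf => (mem_union.1 hf).elim (hW f)
      fun h => hT f (mem_insert_of_mem h)
    obtain ⟨P, h1, h2⟩ := hF.exists_paths
    have hmem : ∀ i ∈ I, ∀ f ∈ P i, f ≠ e → f ∈ A ∪ T := fun i hi f hf hfe => by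
      have := (h1 i hi).2.1 f hf
      simp only [mem_union, mem_insert] at this ⊢
      tauto
    by_cases hex : ∃ i ∈ I, e ∈ P i
    swap
    · exact ⟨fun i => (P i).toFinset, fun i hi => ⟨fun f hf => hmem i hi f (List.mem_toFinset.1 hf)
        fun a => hex ⟨i, hi, a ▸ List.mem_toFinset.1 hf⟩, (h1 i hi).1.reach⟩, h2⟩
    obtain ⟨i, hi, hei⟩ := hex
    obtain ⟨l₁, l₂, hl⟩ := List.append_of_mem hei
    have hw := (h1 i hi).1
    have hn := nodup_of_verts (h1 i hi).2.2
    rw [hl] at hw hn
    obtain ⟨w1, w2⟩ := hw.split_arc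
    simp only [List.nodup_append, List.nodup_cons, List.mem_cons] at hn
    have s1 : l₁.toFinset ⊆ (P i).toFinset := fun f hf => by
      simp only [hl, List.mem_toFinset, List.mem_append] at hf ⊢; tauto
    have s2 : l₂.toFinset ⊆ (P i).toFinset := fun f hf => by
      simp only [hl, List.mem_toFinset, List.mem_append, List.mem_cons] at hf ⊢; tauto
    have he := hT e (mem_insert_self _ _)
    let dem' : ι ⊕ Bool → V × V := Sum.elim (Function.update dem i ((dem i).1, G.src e))
      fun b => if b then (G.src e, G.tgt e) else (G.tgt e, (dem i).2)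
    let P' : ι ⊕ Bool → Finset E := Sum.elim (fun j => if j = i then l₁.toFinset else
      (P j).toFinset) fun _ => l₂.toFinset
    have d1 : dem' (Sum.inl i) = ((dem i).1, G.src e) := Function.update_self _ _ _
    have d2 : ∀ j, j ≠ i → dem' (Sum.inl j) = dem j := fun j h => Function.update_of_ne h _ _
    have d3 : dem' (Sum.inr true) = (G.src e, G.tgt e) := rfl
    have d4 : dem' (Sum.inr false) = (G.tgt e, (dem i).2) := rfl
    have q1 : P' (Sum.inl i) = l₁.toFinset :=
      if_pos rfl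
    have q2 : ∀ j, j ≠ i → P' (Sum.inl j) = (P j).toFinset :=
      fun j h => if_neg h
    have q3 : P' (Sum.inr false) = l₂.toFinset := rfl
    clear_value dem' P'
    have sP : ∀ j, P' (Sum.inl j) ⊆ (P j).toFinset := fun j => by
      by_cases e : j = i
      · rw [e, q1]; exact s1
      · rw [q2 j e]
    obtain ⟨F, g1, g2⟩ := hK G (A ∪ T) dem' (insert (Sum.inr false) (I.map Function.Embedding.inl))
      (Sum.inr true) ((card_insert_le _ _).trans (by simpa using hI)) (by simp)
      (hA.mono subset_union_left) hWT (by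
        simp only [mem_insert, mem_map, Function.Embedding.inl_apply]
        rintro _ (rfl | rfl | ⟨j, hj, rfl⟩)
        · rw [d3]; exact he
        · rw [d4]; exact ⟨he.2, (hd i hi).2⟩
        · by_cases e : j = i
          · rw [e, d1]; exact ⟨(hd i hi).1, he.1⟩
          · rw [d2 j e]; exact hd j hj)
      ⟨P', by
        simp only [mem_insert, mem_map, Function.Embedding.inl_apply]
        rintro _ (rfl | ⟨j, hj, rfl⟩)
        · rw [q3, d4]
          refine ⟨fun f hf => hmem i hi f (List.mem_toFinset.1 (s2 hf)) ?_, w2.reach⟩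
          rintro rfl
          exact hn.2.1.1 (List.mem_toFinset.1 hf)
        · by_cases e' : j = i
          · subst e'
            rw [q1, d1]
            refine ⟨fun f hf => hmem j hi f (List.mem_toFinset.1 (s1 hf)) ?_, w1.reach⟩
            exact hn.2.2 f (List.mem_toFinset.1 hf) e (Or.inl rfl)
          · rw [q2 j e', d2 j e']
            refine ⟨fun f hf => hmem j hj f (List.mem_toFinset.1 hf) ?_, (h1 j hj).1.reach⟩
            rintro rfl
            exact disjoint_left.1 (h2 j hj i hi e') hf (List.mem_toFinset.2 hei), by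
        have key : ∀ j ∈ I, Disjoint (P' (Sum.inl j)) l₂.toFinset := fun j hj => by
          by_cases e' : j = i
          · subst e'
            rw [q1]
            exact disjoint_left.2 fun f hf hf' => hn.2.2 f (List.mem_toFinset.1 hf) f
              (Or.inr (List.mem_toFinset.1 hf')) rfl
          · exact (h2 j hj i hi e').mono (sP j) s2
        simp only [mem_insert, mem_map, Function.Embedding.inl_apply]
        rintro _ (rfl | ⟨j, hj, rfl⟩) _ (rfl | ⟨j', hj', rfl⟩) hne
        · exact absurd rfl hne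
        · rw [q3]; exact (key j' hj').symm
        · rw [q3]; exact key j hj
        · exact (h2 j hj j' hj' fun a => hne (by rw [a])).mono (sP j) (sP j')⟩
      (by rw [d3]; exact (hr e (mem_insert_self _ _)).1.mono subset_union_left)
      (by rw [d3]; exact (hr e (mem_insert_self _ _)).2.mono subset_union_left)
    have m1 : ∀ j ∈ I, Sum.inl j ∈ insert (Sum.inr true) (insert (Sum.inr false)
      (I.map (Function.Embedding.inl (β := Bool)))) := fun j hj => by simpa using hj
    have m2 : ∀ b, Sum.inr b ∈ insert (Sum.inr true) (insert (Sum.inr false)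
      (I.map (Function.Embedding.inl (β := Bool)))) := fun b => by cases b <;> simp
    refine ⟨fun j => if j = i then F (Sum.inl i) ∪ F (Sum.inr true) ∪ F (Sum.inr false)
      else F (Sum.inl j), fun j hj => ?_, fun j hj j' hj' hjj => ?_⟩
    · by_cases e' : j = i
      · subst e'
        have a1 := g1 _ (m1 j hj)
        have a2 := g1 _ (m2 true)
        have a3 := g1 _ (m2 false)
        rw [d1] at a1
        rw [d3] at a2
        rw [d4] at a3
        simp only [if_true]
        exact ⟨union_subset (union_subset a1.1 a2.1) a3.1,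
          ((a1.2.mono (subset_union_left.trans subset_union_left)).trans
            (a2.2.mono (subset_union_right.trans subset_union_left))).trans
            (a3.2.mono subset_union_right)⟩
      · have := g1 _ (m1 j hj)
        rw [d2 j e'] at this
        simpa only [if_neg e'] using this
    · have key : ∀ j ∈ I, j ≠ i →
          Disjoint (F (Sum.inl j)) (F (Sum.inl i) ∪ F (Sum.inr true) ∪ F (Sum.inr false)) :=
        fun j hj e' => by
          simp only [disjoint_union_right]
          exact ⟨⟨g2 _ (m1 j hj) _ (m1 i hi) (by simpa using e'),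
            g2 _ (m1 j hj) _ (m2 _) (by simp)⟩, g2 _ (m1 j hj) _ (m2 _) (by simp)⟩
      by_cases e1 : j = i <;> by_cases e2 : j' = i
      · exact absurd (e1.trans e2.symm) hjj
      · simp only [if_pos e1, if_neg e2]
        exact (key j' hj' e2).symm
      · simp only [if_neg e1, if_pos e2]
        exact key j hj e1
      · simp only [if_neg e1, if_neg e2]
        exact g2 _ (m1 j hj) _ (m1 j' hj') (by simpa using hjj)

end MG

end Pool.Agent.P.MP_eb0bd2_lc
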