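import Pool.Agent.P.MP_eb0bd2_lc.Walk

set_option autoImplicit false

namespace Pool.Agent.P.MP_eb0bd2_lc

open Finset

namespace MG

variable {V E : Type} {G : MG V E}

variable (G) in
/-- There is an arc of `A` from `x` to `y`. -/
def Arc (A : Finset E) (x y : V) : Prop := ∃ e ∈ A, G.src e = x ∧ G.tgt e = y

theorem arc_rev {A : Finset E} {x y : V} : G.rev.Arc A x y ↔ G.Arc A y x := by
  simp [Arc, and_comm]

variable (G) in
/-- Adjacent by an arc of `A` or exceptional. -/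
def Nb (A : Finset E) (X : V → Finset V) (x y : V) : Prop := G.Arc A x y ∨ G.Arc A y x ∨ y ∈ X x

variable (G) in
/-- Independence number at most two, after adding a graph of maximum degree `Δ`. -/
def Rob (A : Finset E) (Δ : ℕ) : Prop :=
  ∃ X : V → Finset V, (∀ x, (X x).card ≤ Δ) ∧ (∀ x y, y ∈ X x → x ∈ X y) ∧
    ∀ x ∈ G.Vs, ∀ y ∈ G.Vs, ∀ z ∈ G.Vs, x ≠ y → y ≠ z → x ≠ z →
      G.Nb A X x y ∨ G.Nb A X y z ∨ G.Nb A X x z

theorem Arc.mono {A B : Finset E} {x y : V} (h : G.Arc A x y) (hAB : A ⊆ B) : G.Arc B x y := by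
  obtain ⟨e, he, h⟩ := h
  exact ⟨e, hAB he, h⟩

theorem Rob.mono {A B : Finset E} {Δ : ℕ} (h : G.Rob A Δ) (hAB : A ⊆ B) : G.Rob B Δ := by
  obtain ⟨X, h1, h2, h3⟩ := h
  refine ⟨X, h1, h2, fun x hx y hy z hz a b c => ?_⟩
  have m : ∀ {u v}, G.Nb A X u v → G.Nb B X u v := fun h =>
    h.imp (·.mono hAB) (Or.imp_left (·.mono hAB))
  exact (h3 x hx y hy z hz a b c).imp m (Or.imp m m)

theorem Rob.rev {A : Finset E} {Δ : ℕ} (h : G.Rob A Δ) : G.rev.Rob A Δ := by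
  obtain ⟨X, h1, h2, h3⟩ := h
  refine ⟨X, h1, h2, fun x hx y hy z hz a b c => ?_⟩
  have m : ∀ {u v}, G.Nb A X u v → G.rev.Nb A X u v := fun h => by
    simp only [Nb, arc_rev] at h ⊢; tauto
  exact (h3 x hx y hy z hz a b c).imp m (Or.imp m m)

variable [DecidableEq V] [DecidableEq E]

variable (G) in
/-- Every vertex is an end of at most `d` arcs of `F`. -/
def Deg (F : Finset E) (d : ℕ) : Prop :=
  ∀ x, (F.filter fun e => G.src e = x ∨ G.tgt e = x).card ≤ d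

theorem Rob.sdiff {A F : Finset E} {Δ d : ℕ} (h : G.Rob A Δ) (hF : G.Deg F d) :
    G.Rob (A \ F) (Δ + d) := by
  obtain ⟨X, h1, h2, h3⟩ := h
  let Y : V → Finset V := fun x =>
    (F.filter fun e => G.src e = x ∨ G.tgt e = x).image fun e =>
      if G.src e = x then G.tgt e else G.src e
  have hY : ∀ x y, y ∈ Y x ↔ G.Arc F x y ∨ G.Arc F y x := by
    intro x y
    simp only [Y, mem_image, mem_filter, Arc]
    constructor
    · rintro ⟨e, ⟨he, h⟩, rfl⟩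
      by_cases hs : G.src e = x
      · exact Or.inl ⟨e, he, hs, by simp [hs]⟩
      · exact Or.inr ⟨e, he, by simp [hs], h.resolve_left hs⟩
    · rintro (⟨e, he, rfl, rfl⟩ | ⟨e, he, rfl, rfl⟩)
      · exact ⟨e, ⟨he, Or.inl rfl⟩, by simp⟩
      · refine ⟨e, ⟨he, Or.inr rfl⟩, ?_⟩
        split_ifs with h
        · exact h.symm
        · rfl
  refine ⟨fun x => X x ∪ Y x, fun x => ?_, fun x y h => ?_, fun x hx y hy z hz a b c => ?_⟩
  · exact (card_union_le _ _).trans (add_le_add (h1 x) (card_image_le.trans (hF x)))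
  · simp only [mem_union, hY] at h ⊢
    have := h2 x y
    tauto
  · have s : ∀ {u v}, G.Arc A u v → G.Arc (A \ F) u v ∨ G.Arc F u v := by
      rintro u v ⟨e, he, h⟩
      by_cases hf : e ∈ F
      · exact Or.inr ⟨e, hf, h⟩
      · exact Or.inl ⟨e, mem_sdiff.2 ⟨he, hf⟩, h⟩
    have m : ∀ {u v}, G.Nb A X u v → G.Nb (A \ F) (fun x => X x ∪ Y x) u v := fun h => by
      simp only [Nb, mem_union, hY] at h ⊢
      rcases h with h | h | h
      · have := s h; tauto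
      · have := s h; tauto
      · tauto
    exact (h3 x hx y hy z hz a b c).imp m (Or.imp m m)

theorem Walk.deg {x y : V} {l : List E} (h : G.Walk x y l) (hn : (G.verts x l).Nodup) :
    G.Deg l.toFinset 2 := by
  intro v
  have h1 : (l.toFinset.filter fun e => G.src e = v).card ≤ 1 := card_le_one.2 fun a ha b hb => by
    simp only [mem_filter, List.mem_toFinset] at ha hb
    exact h.src_inj hn ha.1 hb.1 (ha.2.trans hb.2.symm)
  have h2 : (l.toFinset.filter fun e => G.tgt e = v).card ≤ 1 := card_le_one.2 fun a ha b hb => by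
    simp only [mem_filter, List.mem_toFinset] at ha hb
    exact tgt_inj_of_nodup hn ha.1 hb.1 (ha.2.trans hb.2.symm)
  rw [filter_or]
  exact (card_union_le _ _).trans (by omega)

theorem deg_biUnion {ι : Type} {I : Finset ι} {F : ι → Finset E} {d : ℕ}
    (h : ∀ i ∈ I, G.Deg (F i) d) : G.Deg (I.biUnion F) (I.card * d) := by
  intro x
  rw [filter_biUnion]
  exact card_biUnion_le_card_mul _ _ _ fun i hi => h i hi x

theorem deg_card (F : Finset E) : G.Deg F F.card := fun _ => card_filter_le _ _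

theorem Deg.of_le {F : Finset E} {d d' : ℕ} (h : G.Deg F d) (hd : d ≤ d') : G.Deg F d' :=
  fun x => (h x).trans hd

open Classical in
/-- A vertex set all of whose members have few out-neighbours inside it is small. -/
theorem Rob.card_le {A : Finset E} {Δ f : ℕ} (h : G.Rob A Δ) {R : Finset V} (hR : R ⊆ G.Vs)
    (hf : ∀ v ∈ R, (R.filter fun z => z ≠ v ∧ G.Arc A v z).card ≤ f) :
    R.card ≤ 2 * (2 * f + Δ + 1) := by
  obtain ⟨X, h1, h2, h3⟩ := h
  have sub : ∀ R' ⊆ R, R'.Nonempty → ∃ v ∈ R', ∃ R'' ⊆ R', R'.card ≤ R''.card + (2 * f + Δ + 1) ∧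
      ∀ z ∈ R'', z ≠ v ∧ ¬ G.Nb A X v z := by
    intro R' hR' hne
    have hsum := sum_card_bipartiteAbove_eq_sum_card_bipartiteBelow (s := R') (t := R')
      (fun v z => z ≠ v ∧ G.Arc A v z)
    have hle : ∑ z ∈ R', (R'.bipartiteBelow (fun v z => z ≠ v ∧ G.Arc A v z) z).card ≤
        ∑ z ∈ R', f := by
      rw [← hsum]
      refine sum_le_sum fun v hv => le_trans (card_le_card ?_) (hf v (hR' hv))
      exact filter_subset_filter _ hR'
    obtain ⟨v, hv, hin⟩ := exists_le_of_sum_le hne hle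
    let B : Finset V := insert v (((R.filter fun z => z ≠ v ∧ G.Arc A v z) ∪
      R'.bipartiteBelow (fun v z => z ≠ v ∧ G.Arc A v z) v) ∪ X v)
    have hB : B.card ≤ 2 * f + Δ + 1 := by
      refine (card_insert_le _ _).trans ?_
      have a1 := card_union_le ((R.filter fun z => z ≠ v ∧ G.Arc A v z) ∪
        R'.bipartiteBelow (fun v z => z ≠ v ∧ G.Arc A v z) v) (X v)
      have a2 := card_union_le (R.filter fun z => z ≠ v ∧ G.Arc A v z)
        (R'.bipartiteBelow (fun v z => z ≠ v ∧ G.Arc A v z) v)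
      have a3 := hf v (hR' hv)
      have a4 := h1 v
      omega
    refine ⟨v, hv, R' \ B, sdiff_subset, ?_, fun z hz => ?_⟩
    · have := le_card_sdiff B R'
      omega
    · obtain ⟨hz1, hz2⟩ := mem_sdiff.1 hz
      simp only [B, mem_insert, mem_union, mem_filter, mem_bipartiteBelow, not_or] at hz2
      refine ⟨hz2.1, ?_⟩
      rintro (h | h | h)
      · exact hz2.2.1.1 ⟨hR' hz1, hz2.1, h⟩
      · exact hz2.2.1.2 ⟨hz1, Ne.symm hz2.1, h⟩
      · exact hz2.2.2 h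
  by_contra hc
  obtain ⟨x, hx, R₁, hR₁, c1, m1⟩ := sub R Subset.rfl (card_pos.1 (by omega))
  obtain ⟨y, hy, R₂, hR₂, c2, m2⟩ := sub R₁ hR₁ (card_pos.1 (by omega))
  obtain ⟨z, hz⟩ : R₂.Nonempty := card_pos.1 (by omega)
  rcases h3 x (hR hx) y (hR (hR₁ hy)) z (hR (hR₁ (hR₂ hz))) (m1 y hy).1.symm (m2 z hz).1.symm
    (m1 z (hR₂ hz)).1.symm with h | h | h
  exacts [(m1 y hy).2 h, (m2 z hz).2 h, (m1 z (hR₂ hz)).2 h]

/-- The width bound of the richness preorder. -/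
def wd (Δ K : ℕ) : ℕ := 2 * (2 * (2 * (2 * K + Δ + 1)) + Δ + 1)

theorem Rob.exists_rich {A : Finset E} {Δ : ℕ} (h : G.Rob A Δ) (K : ℕ) {X : Finset V}
    (hX : X ⊆ G.Vs) (hc : wd Δ K < X.card) : ∃ x ∈ X, ∃ y ∈ X, x ≠ y ∧ G.Rich A K x y := by
  classical
  obtain ⟨x, hx, hO⟩ : ∃ x ∈ X, 2 * (2 * K + Δ + 1) <
      (X.filter fun z => z ≠ x ∧ G.Arc A x z).card := by
    by_contra hcon
    push Not at hcon
    have := h.card_le hX (f := 2 * (2 * K + Δ + 1)) (by convert hcon)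
    unfold wd at hc
    omega
  set O := X.filter fun z => z ≠ x ∧ G.Arc A x z with hOdef
  obtain ⟨y, hy, hZ⟩ : ∃ y ∈ O, K < (O.filter fun z => z ≠ y ∧ G.rev.Arc A y z).card := by
    by_contra hcon
    push Not at hcon
    have := h.rev.card_le (R := O) ((filter_subset _ _).trans hX) (f := K) (by convert hcon)
    omega
  obtain ⟨hyX, hyx, -⟩ := mem_filter.1 hy
  refine ⟨x, hx, y, hyX, hyx.symm, fun S hxS hyS => ?_⟩
  refine hZ.le.trans (le_trans (card_le_card ?_) (card_image_le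
    (f := fun e => if G.src e = x then G.tgt e else G.src e)))
  intro z hz
  obtain ⟨hzO, -, hzy⟩ := mem_filter.1 hz
  obtain ⟨-, hzx, hxz⟩ := mem_filter.1 hzO
  rw [arc_rev] at hzy
  by_cases hzS : z ∈ S
  · obtain ⟨e, he, rfl, rfl⟩ := hzy
    exact mem_image.2 ⟨e, mem_cut.2 ⟨he, hzS, hyS⟩, by simp [hzx]⟩
  · obtain ⟨e, he, rfl, rfl⟩ := hxz
    exact mem_image.2 ⟨e, mem_cut.2 ⟨he, hxS, hzS⟩, by simp⟩

omit [DecidableEq E] in
theorem exists_gen {r : V → V → Prop} (hrefl : ∀ x, r x x)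
    (htrans : ∀ x y z, r x y → r y z → r x z) (Y : Finset V) (w : ℕ)
    (hw : ∀ X ⊆ Y, w < X.card → ∃ x ∈ X, ∃ y ∈ X, x ≠ y ∧ r x y) :
    ∃ Gs ⊆ Y, Gs.card ≤ w ∧ ∀ y ∈ Y, ∃ g ∈ Gs, r g y := by
  classical
  obtain ⟨Gs, hGs, hmin⟩ := exists_min_image
    (Y.powerset.filter fun Gs => ∀ y ∈ Y, ∃ g ∈ Gs, r g y) card
    ⟨Y, by simp only [mem_filter, mem_powerset]; exact ⟨Subset.rfl, fun y hy => ⟨y, hy, hrefl y⟩⟩⟩
  obtain ⟨h1, h2⟩ : Gs ⊆ Y ∧ ∀ y ∈ Y, ∃ g ∈ Gs, r g y := by simpa using hGs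
  refine ⟨Gs, h1, ?_, h2⟩
  by_contra hc
  obtain ⟨x, hx, y, hy, hxy, hr⟩ := hw Gs h1 (by omega)
  have := hmin (Gs.erase y) (by
    simp only [mem_filter, mem_powerset]
    refine ⟨(erase_subset _ _).trans h1, fun z hz => ?_⟩
    obtain ⟨g, hg, hgz⟩ := h2 z hz
    by_cases hgy : g = y
    · subst hgy
      exact ⟨x, mem_erase.2 ⟨hxy, hx⟩, htrans _ _ _ hr hgz⟩
    · exact ⟨g, mem_erase.2 ⟨hgy, hg⟩, hgz⟩)
  rw [card_erase_of_mem hy] at this
  have := card_pos.2 ⟨y, hy⟩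
  omega

/-- Small generating sets on both sides of a cut. -/
theorem Rob.exists_gens {A : Finset E} {Δ : ℕ} (h : G.Rob A Δ) (K : ℕ) (S : Set V) :
    ∃ Gs Hs : Finset V, Gs.card ≤ wd Δ K ∧ Hs.card ≤ wd Δ K ∧ (∀ g ∈ Gs, g ∈ G.Vs ∧ g ∈ S) ∧
      (∀ g ∈ Hs, g ∈ G.Vs ∧ g ∉ S) ∧ (∀ y ∈ G.Vs, y ∈ S → ∃ g ∈ Gs, G.Rich A K g y) ∧
      (∀ y ∈ G.Vs, y ∉ S → ∃ g ∈ Hs, G.Rich A K y g) := by
  classical
  obtain ⟨Gs, a1, a2, a3⟩ := exists_gen (r := G.Rich A K) (Rich.refl A K)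
    (fun _ _ _ => Rich.trans) (G.Vs.filter (· ∈ S)) (wd Δ K)
    fun X hX hc => h.exists_rich K (hX.trans (filter_subset _ _)) hc
  obtain ⟨Hs, b1, b2, b3⟩ := exists_gen (r := fun x y => G.Rich A K y x) (Rich.refl A K)
    (fun _ _ _ h h' => Rich.trans h' h) (G.Vs.filter (· ∉ S)) (wd Δ K)
    fun X hX hc => by
      obtain ⟨x, hx, y, hy, hxy, hr⟩ := h.exists_rich K (hX.trans (filter_subset _ _)) hc
      exact ⟨y, hy, x, hx, hxy.symm, hr⟩
  exact ⟨Gs, Hs, a2, b2, fun g hg => mem_filter.1 (a1 hg), fun g hg => mem_filter.1 (b1 hg),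
    fun y hy hS => a3 y (mem_filter.2 ⟨hy, hS⟩), fun y hy hS => b3 y (mem_filter.2 ⟨hy, hS⟩)⟩

/-- Arcs of `U` leaving `S`, counted through the generating sets. -/
theorem Rob.card_cut_le {A U : Finset E} {Δ : ℕ} (h : G.Rob A Δ) (hU : G.WF U) (K m : ℕ)
    (S : Set V) (hS : ∀ g ∈ G.Vs, g ∈ S → ∀ g' ∈ G.Vs, g' ∉ S → ∀ B ⊆ U,
      (∀ e ∈ B, G.Rich A K g (G.src e) ∧ G.Rich A K (G.tgt e) g') → B.card ≤ m) :
    (G.cut U S).card ≤ wd Δ K * wd Δ K * m := by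
  classical
  obtain ⟨Gs, Hs, c1, c2, m1, m2, g1, g2⟩ := h.exists_gens K S
  have hsub : G.cut U S ⊆ (Gs ×ˢ Hs).biUnion fun p =>
      U.filter fun e => G.Rich A K p.1 (G.src e) ∧ G.Rich A K (G.tgt e) p.2 := by
    intro e he
    obtain ⟨heU, h1, h2⟩ := mem_cut.1 he
    obtain ⟨g, hg, r1⟩ := g1 _ (hU e heU).1 h1
    obtain ⟨g', hg', r2⟩ := g2 _ (hU e heU).2 h2
    exact mem_biUnion.2 ⟨(g, g'), mem_product.2 ⟨hg, hg'⟩, mem_filter.2 ⟨heU, r1, r2⟩⟩
  refine (card_le_card hsub).trans ((card_biUnion_le_card_mul _ _ m fun p hp => ?_).trans ?_)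
  · obtain ⟨hg, hg'⟩ := mem_product.1 hp
    exact hS _ (m1 _ hg).1 (m1 _ hg).2 _ (m2 _ hg').1 (m2 _ hg').2 _ (filter_subset _ _)
      fun e he => (mem_filter.1 he).2
  · rw [card_product]
    gcongr

/-- Sets closed under richness have small cuts. -/
theorem Rob.card_cut_le_of_closed {A : Finset E} {Δ : ℕ} (h : G.Rob A Δ) (hA : G.WF A) (K : ℕ)
    (S : Set V) (hS : ∀ g ∈ G.Vs, g ∈ S → ∀ g' ∈ G.Vs, G.Rich A K g g' → g' ∈ S) :
    (G.cut A S).card ≤ wd Δ K * wd Δ K * K := by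
  refine h.card_cut_le hA K K S fun g hg hgS g' hg' hg'S B hB hr => ?_
  have : ¬ G.Rich A K g g' := fun h' => hg'S (hS g hg hgS g' hg' h')
  simp only [Rich, not_forall, not_le] at this
  obtain ⟨C, h1, h2, h3⟩ := this
  refine le_trans (card_le_card fun e he => mem_cut.2 ⟨hB he, ?_, ?_⟩) h3.le
  · by_contra hc
    exact absurd ((hr e he).1 C h1 hc) (not_le.2 h3)
  · intro hc
    exact absurd ((hr e he).2 C hc h2) (not_le.2 h3)

end MG

end Pool.Agent.P.MP_eb0bd2_lc
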