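import Pool.Agent.P.MP_eb0bd2_lc.DP

set_option autoImplicit false
set_option linter.unusedSectionVars false

namespace Pool.Agent.P.MP_eb0bd2_lc

open Finset Relation

namespace MG

variable {V E : Type} {G : MG V E} [DecidableEq V] [DecidableEq E]

theorem exists_tree [Nonempty E] {H : Finset E} {s : V} (h : ∀ v ∈ G.Vs, G.Reach H s v) :
    ∃ (p : V → E) (d : V → ℕ), ∀ v ∈ G.Vs, v ≠ s →
      p v ∈ H ∧ G.tgt (p v) = v ∧ d (G.src (p v)) < d v := by
  let d : V → ℕ := fun v => sInf {n | ∃ l, G.Walk s v l ∧ (∀ e ∈ l, e ∈ H) ∧ l.length = n}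
  have : ∀ v, ∃ e, v ∈ G.Vs → v ≠ s → e ∈ H ∧ G.tgt e = v ∧ d (G.src e) < d v := by
    intro v
    by_cases hv : v ∈ G.Vs ∧ v ≠ s
    swap
    · exact ⟨Classical.arbitrary E, fun a b => absurd ⟨a, b⟩ hv⟩
    obtain ⟨l₀, a, b⟩ := h v hv.1
    obtain ⟨l, h1, h2, h3⟩ := Nat.sInf_mem
      (s := {n | ∃ l, G.Walk s v l ∧ (∀ e ∈ l, e ∈ H) ∧ l.length = n}) ⟨_, l₀, a, b, rfl⟩
    rcases List.eq_nil_or_concat' l with rfl | ⟨l', e, rfl⟩
    · exact absurd (walk_nil_iff.1 h1).symm hv.2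
    obtain ⟨w1, w2⟩ := h1.split_arc
    refine ⟨e, fun _ _ => ⟨h2 e (by simp), walk_nil_iff.1 w2, ?_⟩⟩
    have : d (G.src e) ≤ l'.length := Nat.sInf_le ⟨l', w1, fun f hf => h2 f (by simp [hf]), rfl⟩
    have h4 : d v = l'.length + 1 := by simpa using h3.symm
    omega
  choose p hp using this
  exact ⟨p, d, hp⟩

theorem exists_subtrees [Nonempty E] {H : Finset E} {s : V} (hW : G.WF H)
    (h : ∀ v ∈ G.Vs, G.Reach H s v) :
    ∃ Tr : Finset V → Finset E, (∀ X Y, X ⊆ Y → Tr X ⊆ Tr Y) ∧ (∀ X, Tr X ⊆ H) ∧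
      (∀ X ⊆ G.Vs, ∀ x ∈ X, G.Reach (Tr X) s x) ∧
      ∀ X, 2 * (G.Vs.filter fun u => 3 ≤ ((Tr X).filter fun e => G.src e = u).card).card ≤
        X.card := by
  classical
  obtain ⟨p, d, hp⟩ := exists_tree h
  let st : V → V → Prop := fun a b => a ∈ G.Vs ∧ a ≠ s ∧ b = G.src (p a)
  let An : Finset V → Finset V := fun X => G.Vs.filter fun v => ∃ x ∈ X, ReflTransGen st x v
  have up : ∀ X, ∀ v ∈ (An X).erase s, G.src (p v) ∈ An X := by
    intro X v hv
    obtain ⟨h1, h2⟩ := mem_erase.1 hv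
    obtain ⟨h2, x, hx, h3⟩ := mem_filter.1 h2
    exact mem_filter.2 ⟨(hW _ (hp v h2 h1).1).1, x, hx, h3.tail ⟨h2, h1, rfl⟩⟩
  refine ⟨fun X => ((An X).erase s).image p, fun X Y hXY => ?_, fun X e he => ?_,
    fun X hX x hx => ?_, fun X => ?_⟩
  · refine image_subset_image (erase_subset_erase _ fun v hv => ?_)
    obtain ⟨h2, x, hx, h3⟩ := mem_filter.1 hv
    exact mem_filter.2 ⟨h2, x, hXY hx, h3⟩
  · obtain ⟨v, hv, rfl⟩ := mem_image.1 he
    exact (hp v (mem_filter.1 (mem_erase.1 hv).2).1 (mem_erase.1 hv).1).1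
  · have : ∀ n v, d v = n → v ∈ An X → G.Reach (((An X).erase s).image p) s v := by
      intro n
      induction n using Nat.strong_induction_on with
      | _ n ih =>
        intro v hn hv
        by_cases e : v = s
        · exact e ▸ Reach.refl _ _
        have hv' := mem_erase.2 ⟨e, hv⟩
        obtain ⟨-, a2, a3⟩ := hp v (mem_filter.1 hv).1 e
        have := (ih _ (hn ▸ a3) _ rfl (up X v hv')).trans (Reach.single (mem_image_of_mem p hv'))
        rwa [a2] at this
    exact this _ x rfl (mem_filter.2 ⟨hX hx, x, hx, ReflTransGen.refl⟩)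
  · let fb : V → Finset V := fun u => ((An X).erase s).filter fun v => G.src (p v) = u
    have e1 := card_eq_sum_card_fiberwise (f := fun v => G.src (p v)) (s := (An X).erase s)
      (t := An X) (up X)
    let Hs := (An X).filter fun u => 3 ≤ (fb u).card
    have s1 : (G.Vs.filter fun u => 3 ≤ ((((An X).erase s).image p).filter
        fun e => G.src e = u).card) ⊆ Hs := by
      intro u hu
      have a1 := (mem_filter.1 hu).2
      rw [filter_image] at a1
      have a2 : 3 ≤ (fb u).card := a1.trans card_image_le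
      obtain ⟨v, hv⟩ : (fb u).Nonempty := card_pos.1 (by omega)
      obtain ⟨b1, b2⟩ := mem_filter.1 hv
      exact mem_filter.2 ⟨b2 ▸ up X v b1, a2⟩
    have s2 : ∑ u ∈ An X, ((if u ∉ X then 1 else 0) + 2 * (if 3 ≤ (fb u).card then 1 else 0)) ≤
        ∑ u ∈ An X, (fb u).card := by
      refine sum_le_sum fun u hu => ?_
      have : u ∉ X → 1 ≤ (fb u).card := by
        intro hX
        obtain ⟨h2, x, hx, h3⟩ := mem_filter.1 hu
        rcases h3.cases_tail with rfl | ⟨a, h4, h5, h6, h7⟩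
        · exact absurd hx hX
        · exact card_pos.2 ⟨a, mem_filter.2 ⟨mem_erase.2 ⟨h6, mem_filter.2 ⟨h5, x, hx, h4⟩⟩,
            h7.symm⟩⟩
      split_ifs with a b b
      · omega
      · omega
      · omega
      · have := this a; omega
    rw [sum_add_distrib, ← mul_sum, ← card_filter, ← card_filter] at s2
    have s3 : (An X).card ≤ ((An X).filter fun u => u ∉ X).card + X.card := by
      refine le_trans (card_le_card fun u hu => ?_) (card_union_le _ _)
      by_cases a : u ∈ X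
      · exact mem_union_right _ a
      · exact mem_union_left _ (mem_filter.2 ⟨hu, a⟩)
    have s4 := card_le_card s1
    have s5 : ((An X).erase s).card ≤ (An X).card := card_erase_le
    simp only [Hs, fb] at *
    omega

theorem Rob.exists_order {A : Finset E} {Δ : ℕ} (h : G.Rob A Δ) :
    ∃ ρ : V → ℕ, ∀ f, (G.Vs.filter fun v =>
      (A.filter fun e => G.tgt e = v ∧ ρ (G.src e) < ρ v).card ≤ f).card ≤ 2 * (2 * f + Δ + 1) := by
  classical
  have key : ∀ R ⊆ G.Vs, ∃ ρ : V → ℕ, ∀ f, (R.filter fun v =>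
      (R.filter fun u => (u ≠ v ∧ G.rev.Arc A v u) ∧ ρ u < ρ v).card ≤ f).card ≤
        2 * (2 * f + Δ + 1) := by
    intro R
    induction R using Finset.strongInduction with
    | H R ih =>
      intro hR
      rcases R.eq_empty_or_nonempty with rfl | hne
      · exact ⟨fun _ => 0, by simp⟩
      obtain ⟨v₀, hv₀, hmax⟩ := exists_max_image R
        (fun v => (R.filter fun u => u ≠ v ∧ G.rev.Arc A v u).card) hne
      obtain ⟨ρ, hρ⟩ := ih (R.erase v₀) (erase_ssubset hv₀) ((erase_subset _ _).trans hR)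
      refine ⟨Function.update ρ v₀ (R.sup ρ + 1), fun f => ?_⟩
      by_cases hf : (R.filter fun u => u ≠ v₀ ∧ G.rev.Arc A v₀ u).card ≤ f
      · exact (card_filter_le _ _).trans (h.rev.card_le hR
          (by convert fun v hv => (hmax v hv).trans hf))
      refine le_trans (card_le_card fun v hv => ?_) (hρ f)
      obtain ⟨a1, a2⟩ := mem_filter.1 hv
      have hne : v ≠ v₀ := by
        rintro rfl
        refine hf (le_trans (card_le_card fun u hu => ?_) a2)
        obtain ⟨b1, b2⟩ := mem_filter.1 hu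
        refine mem_filter.2 ⟨b1, b2, ?_⟩
        rw [Function.update_self, Function.update_of_ne b2.1]
        exact Nat.lt_succ_of_le (le_sup b1)
      refine mem_filter.2 ⟨mem_erase.2 ⟨hne, a1⟩, le_trans (card_le_card fun u hu => ?_) a2⟩
      obtain ⟨b1, b2, b3⟩ := mem_filter.1 hu
      refine mem_filter.2 ⟨mem_of_mem_erase b1, b2, ?_⟩
      rwa [Function.update_of_ne hne, Function.update_of_ne (mem_erase.1 b1).1]
  obtain ⟨ρ, hρ⟩ := key G.Vs Subset.rfl
  refine ⟨ρ, fun f => le_trans (card_le_card fun v hv => ?_) (hρ f)⟩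
  obtain ⟨a1, a2⟩ := mem_filter.1 hv
  refine mem_filter.2 ⟨a1, le_trans (le_trans (card_le_card fun u hu => ?_)
    (card_image_le (f := G.src))) a2⟩
  obtain ⟨-, ⟨-, e, he, b1, b2⟩, b3⟩ := mem_filter.1 hu
  exact mem_image.2 ⟨e, mem_filter.2 ⟨he, b1, by rw [show G.src e = u from b2]; exact b3⟩, b2⟩

variable (G) in
/-- A list of arc-disjoint trails inside `T`. -/
def Fam (T : Finset E) (L : List (V × V × List E)) : Prop :=
  (∀ p ∈ L, G.Walk p.1 p.2.1 p.2.2 ∧ p.1 ∈ G.Vs ∧ p.2.1 ∈ G.Vs) ∧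
    (L.flatMap fun p => p.2.2).Nodup ∧ ∀ e ∈ L.flatMap fun p => p.2.2, e ∈ T

/-- The pairs of ends of the trails. -/
def Pr (L : List (V × V × List E)) (a b : V) : Prop := ∃ l, (a, b, l) ∈ L

theorem exists_fam {T : Finset E} (hW : G.WF T) {s : V} (hs : s ∈ G.Vs) (X : Finset V)
    (h : ∀ x ∈ X, G.Reach T s x) : ∃ L, L.length ≤ 2 * X.card ∧ G.Fam T L ∧
      (∀ p ∈ L, ReflTransGen (Pr L) s p.1) ∧ ∀ x ∈ X, ReflTransGen (Pr L) s x := by
  induction X using Finset.induction_on with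
  | empty => exact ⟨[], by simp, by simp [Fam], by simp, by simp⟩
  | insert x X hx ih =>
    obtain ⟨L, c, ⟨f1, f2, f3⟩, r1, r2⟩ := ih fun y hy => h y (mem_insert_of_mem hy)
    rw [card_insert_of_notMem hx]
    obtain ⟨z, hz, hr⟩ := (h x (mem_insert_self _ _)).induction
      (fun y => ∃ z, (z = s ∨ ∃ e ∈ L.flatMap fun p => p.2.2, G.tgt e = z) ∧
        G.Reach (T \ (L.flatMap fun p => p.2.2).toFinset) z y)
      ⟨s, Or.inl rfl, Reach.refl _ _⟩ fun e he ⟨z, hz, hr⟩ => by
        by_cases hm : e ∈ L.flatMap fun p => p.2.2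
        · exact ⟨_, Or.inr ⟨e, hm, rfl⟩, Reach.refl _ _⟩
        · exact ⟨z, hz, hr.trans (Reach.single (mem_sdiff.2 ⟨he, by simpa using hm⟩))⟩
    obtain ⟨l, w, m, n⟩ := hr.exists_simple
    have hxV : x ∈ G.Vs := (h x (mem_insert_self _ _)).mem_Vs hW hs
    obtain ⟨L', c', ⟨g1, g2⟩, r3, r4, r5⟩ : ∃ L', L'.length ≤ L.length + 1 ∧
        ((∀ p ∈ L', G.Walk p.1 p.2.1 p.2.2 ∧ p.1 ∈ G.Vs ∧ p.2.1 ∈ G.Vs) ∧
        (L'.flatMap fun p => p.2.2) = L.flatMap fun p => p.2.2) ∧
        (∀ a b, Pr L a b → ReflTransGen (Pr L') a b) ∧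
        (∀ p ∈ L', ReflTransGen (Pr L') s p.1) ∧ (ReflTransGen (Pr L') s z ∧ z ∈ G.Vs) := by
      rcases hz with rfl | ⟨e, he, rfl⟩
      · exact ⟨L, by omega, ⟨f1, rfl⟩, fun a b h => ReflTransGen.single h, r1,
          ReflTransGen.refl, hs⟩
      obtain ⟨⟨a, b, q⟩, hp, heq⟩ := List.mem_flatMap.1 he
      obtain ⟨L₁, L₂, rfl⟩ := List.append_of_mem hp
      obtain ⟨q₁, q₂, rfl⟩ := List.append_of_mem heq
      obtain ⟨w0, va, vb⟩ := f1 _ hp
      obtain ⟨w1, w2⟩ := w0.split_arc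
      have ve := (hW e (f3 e he)).2
      have k1 : Pr (L₁ ++ (a, G.tgt e, q₁ ++ [e]) :: (G.tgt e, b, q₂) :: L₂) a (G.tgt e) :=
        ⟨_, List.mem_append_right _ List.mem_cons_self⟩
      have k2 : Pr (L₁ ++ (a, G.tgt e, q₁ ++ [e]) :: (G.tgt e, b, q₂) :: L₂) (G.tgt e) b :=
        ⟨_, List.mem_append_right _ (List.mem_cons_of_mem _ List.mem_cons_self)⟩
      have k3 : ∀ a' b', Pr (L₁ ++ (a, b, q₁ ++ e :: q₂) :: L₂) a' b' → ReflTransGen
          (Pr (L₁ ++ (a, G.tgt e, q₁ ++ [e]) :: (G.tgt e, b, q₂) :: L₂)) a' b' := by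
        rintro a' b' ⟨l', hl'⟩
        simp only [List.mem_append, List.mem_cons] at hl'
        rcases hl' with k | k | k
        · exact ReflTransGen.single ⟨l', by simp [k]⟩
        · cases k
          exact (ReflTransGen.single k1).tail k2
        · exact ReflTransGen.single ⟨l', by simp [k]⟩
      have k4 := rtg_of_forall k3 (r1 _ hp)
      refine ⟨_, by simp; omega, ⟨fun p hp' => ?_, by simp⟩, k3, fun p hp' => ?_, k4.tail k1, ve⟩
      · simp only [List.mem_append, List.mem_cons] at hp'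
        rcases hp' with k | rfl | rfl | k
        exacts [f1 p (by simp [k]), ⟨w1.append (Walk.single e), va, ve⟩, ⟨w2, ve, vb⟩,
          f1 p (by simp [k])]
      · simp only [List.mem_append, List.mem_cons] at hp'
        rcases hp' with k | rfl | rfl | k
        exacts [rtg_of_forall k3 (r1 p (by simp [k])), k4, k4.tail k1,
          rtg_of_forall k3 (r1 p (by simp [k]))]
    have up : ∀ a b, ReflTransGen (Pr L') a b → ReflTransGen (Pr ((z, x, l) :: L')) a b :=
      fun a b h => rtg_mono h fun _ _ ⟨l', hl'⟩ => ⟨l', List.mem_cons_of_mem _ hl'⟩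
    refine ⟨(z, x, l) :: L', by simp; omega, ⟨fun p hp => ?_, ?_, fun e he => ?_⟩,
      fun p hp => ?_, fun y hy => ?_⟩
    · rcases List.mem_cons.1 hp with rfl | hp
      exacts [⟨w, r5.2, hxV⟩, g1 p hp]
    · rw [List.flatMap_cons, g2, List.nodup_append]
      refine ⟨nodup_of_verts n, f2, fun a ha b hb e => ?_⟩
      exact (mem_sdiff.1 (m a ha)).2 (List.mem_toFinset.2 (e ▸ hb))
    · rw [List.flatMap_cons, g2, List.mem_append] at he
      exact he.elim (fun a => (mem_sdiff.1 (m e a)).1) (f3 e)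
    · rcases List.mem_cons.1 hp with rfl | hp
      exacts [up _ _ r5.1, up _ _ (r4 p hp)]
    · rcases mem_insert.1 hy with rfl | hy
      · exact (up _ _ r5.1).tail ⟨l, List.mem_cons_self⟩
      · exact up _ _ (rtg_of_forall r3 (r2 y hy))

theorem Fam.avoid {T : Finset E} (hW : G.WF T) {L : List (V × V × List E)} (h : G.Fam T L)
    (Φ : Finset E) : ∃ L', L'.length ≤ L.length + Φ.card ∧ G.Fam (T \ Φ) L' ∧
      ∀ a b, Pr L a b → ReflTransGen (fun a b => Pr L' a b ∨ G.Arc (T ∩ Φ) a b) a b := by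
  induction Φ using Finset.induction_on with
  | empty => exact ⟨L, by simp, by simpa using h, fun a b h => ReflTransGen.single (Or.inl h)⟩
  | insert e Φ heΦ ih =>
    obtain ⟨L', c, ⟨f1, f2, f3⟩, r⟩ := ih
    rw [card_insert_of_notMem heΦ]
    have sb : T ∩ Φ ⊆ T ∩ insert e Φ := inter_subset_inter_left (subset_insert _ _)
    by_cases he : e ∈ L'.flatMap fun p => p.2.2
    swap
    · refine ⟨L', by omega, ⟨f1, f2, fun f hf => ?_⟩, fun a b h => rtg_mono (r a b h)
        fun _ _ h => h.imp_right (·.mono sb)⟩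
      have := mem_sdiff.1 (f3 f hf)
      refine mem_sdiff.2 ⟨this.1, fun a => ?_⟩
      rcases mem_insert.1 a with rfl | a
      exacts [he hf, this.2 a]
    obtain ⟨⟨a, b, q⟩, hp, heq⟩ := List.mem_flatMap.1 he
    obtain ⟨L₁, L₂, rfl⟩ := List.append_of_mem hp
    obtain ⟨q₁, q₂, rfl⟩ := List.append_of_mem heq
    obtain ⟨w0, va, vb⟩ := f1 _ hp
    obtain ⟨w1, w2⟩ := w0.split_arc
    have heT := (mem_sdiff.1 (f3 e he)).1
    have ve := hW e heT
    have hperm : ((L₁ ++ (a, b, q₁ ++ e :: q₂) :: L₂).flatMap fun p => p.2.2).Perm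
        (e :: (L₁ ++ (a, G.src e, q₁) :: (G.tgt e, b, q₂) :: L₂).flatMap fun p => p.2.2) := by
      simp only [List.flatMap_append, List.flatMap_cons, List.append_assoc, List.cons_append]
      rw [← List.append_assoc, ← List.append_assoc _ q₁]
      exact List.perm_middle
    have n := List.nodup_cons.1 (hperm.nodup_iff.1 f2)
    refine ⟨L₁ ++ (a, G.src e, q₁) :: (G.tgt e, b, q₂) :: L₂, by simp at c ⊢; omega,
      ⟨fun p hp' => ?_, n.2, fun f hf => ?_⟩, fun a' b' h => rtg_of_forall ?_ (r a' b' h)⟩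
    · simp only [List.mem_append, List.mem_cons] at hp'
      rcases hp' with k | rfl | rfl | k
      exacts [f1 p (by simp [k]), ⟨w1, va, ve.1⟩, ⟨w2, ve.2, vb⟩, f1 p (by simp [k])]
    · have := mem_sdiff.1 (f3 f (hperm.mem_iff.2 (List.mem_cons_of_mem _ hf)))
      refine mem_sdiff.2 ⟨this.1, fun a => ?_⟩
      rcases mem_insert.1 a with rfl | a
      exacts [n.1 hf, this.2 a]
    · rintro a' b' (⟨l', hl'⟩ | h)
      · simp only [List.mem_append, List.mem_cons] at hl'
        rcases hl' with k | k | k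
        · exact ReflTransGen.single (Or.inl ⟨l', by simp [k]⟩)
        · cases k
          refine ReflTransGen.tail (b := G.tgt e) (ReflTransGen.tail (b := G.src e)
            (ReflTransGen.single (Or.inl ⟨q₁, by simp⟩))
            (Or.inr ⟨e, mem_inter.2 ⟨heT, mem_insert_self _ _⟩, rfl, rfl⟩)) (Or.inl ⟨q₂, by simp⟩)
        · exact ReflTransGen.single (Or.inl ⟨l', by simp [k]⟩)
      · exact ReflTransGen.single (Or.inr (h.mono sb))

variable (G) in
/-- A list of demands with pairwise disjoint connecting arc sets inside `T`. -/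
def FamS (T : Finset E) (L : List ((V × V) × Finset E)) : Prop :=
  (∀ p ∈ L, p.2 ⊆ T ∧ G.Reach p.2 p.1.1 p.1.2 ∧ p.1.1 ∈ G.Vs ∧ p.1.2 ∈ G.Vs) ∧
    L.Pairwise fun p q => Disjoint p.2 q.2

theorem exists_famS {T : Finset E} (hW : G.WF T) {s : V} (hs : s ∈ G.Vs) (X : Finset V)
    (h : ∀ x ∈ X, G.Reach T s x) (Φ : Finset E) : ∃ L, L.length ≤ 2 * X.card + Φ.card ∧
      G.FamS (T \ Φ) L ∧ ∀ x ∈ X,
        ReflTransGen (fun a b => (a, b) ∈ L.map Prod.fst ∨ G.Arc (T ∩ Φ) a b) s x := by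
  obtain ⟨L, c, f, -, r⟩ := exists_fam hW hs X h
  obtain ⟨L', c', ⟨f1, f2, f3⟩, r'⟩ := f.avoid hW Φ
  refine ⟨L'.map fun p => ((p.1, p.2.1), p.2.2.toFinset), by simp; omega, ⟨fun p hp => ?_, ?_⟩,
    fun x hx => rtg_mono (rtg_of_forall r' (r x hx)) fun a b h => h.imp_left ?_⟩
  · obtain ⟨q, hq, rfl⟩ := List.mem_map.1 hp
    exact ⟨fun e he => f3 e (List.mem_flatMap.2 ⟨q, hq, List.mem_toFinset.1 he⟩),
      (f1 q hq).1.reach, (f1 q hq).2⟩
  · rw [List.pairwise_map]
    exact (List.nodup_flatMap.1 f2).2.imp fun h => List.disjoint_toFinset_iff_disjoint.2 h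
  · rintro ⟨l, hl⟩
    simp only [List.map_map, List.mem_map]
    exact ⟨_, hl, rfl⟩

theorem FamS.feas {T : Finset E} {L : List ((V × V) × Finset E)} (h : G.FamS T L) (d : V × V) :
    G.Feas T (fun i => (L.map Prod.fst).getD i d) (range L.length) := by
  refine ⟨fun i => (L.map Prod.snd).getD i ∅, fun i hi => ?_, fun i hi j hj hij => ?_⟩
  · have hi := mem_range.1 hi
    have := h.1 _ (List.getElem_mem hi)
    simp only [List.getD_eq_getElem?_getD, List.getElem?_map, List.getElem?_eq_getElem hi,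
      Option.map_some, Option.getD_some]
    exact ⟨this.1, this.2.1⟩
  · have hi := mem_range.1 hi
    have hj := mem_range.1 hj
    simp only [List.getD_eq_getElem?_getD, List.getElem?_map, List.getElem?_eq_getElem hi,
      List.getElem?_eq_getElem hj, Option.map_some, Option.getD_some]
    rcases lt_or_gt_of_ne hij with a | a
    · exact List.pairwise_iff_getElem.1 h.2 i j hi hj a
    · exact (List.pairwise_iff_getElem.1 h.2 j i hj hi a).symm

end MG

end Pool.Agent.P.MP_eb0bd2_lc
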