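import Pool.Agent.P.MP_eb0bd2_lc.Bridge

set_option autoImplicit false

namespace Pool.Agent.P.MP_eb0bd2_lc.VariantPolyTime

open Pool.Agent.P.MP_eb0bd2_lc

/-- There is a polynomial-time algorithm which, given a loopless digraph of independence number
at most two (as an adjacency matrix) and two vertices `s`, `t`, decides whether the digraph has an
out-branching rooted at `s` and an in-branching rooted at `t` that are arc-disjoint. -/
theorem result : ∃ f : List (List Bool) × ℕ × ℕ → Bool, N68a2faeb.IsPolyTime f ∧
    ∀ (n : ℕ) (D : Digraph (Fin n)) [DecidableRel D.Adj] (s t : Fin n), (∀ v, ¬ D.Adj v v) →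
      (∀ I : Finset (Fin n), IsIndep D I → I.card ≤ 2) →
      (f (adjMatrix D, s.val, t.val) = true ↔ HasGoodPair D s t) :=
  main

end Pool.Agent.P.MP_eb0bd2_lc.VariantPolyTime
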