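import Mathlib

set_option autoImplicit false

namespace Pool.Agent.P.MP_eb0bd2_lc

open Finset

/-- A directed multigraph frame: ends of arcs and a finite vertex set. -/
structure MG (V E : Type) where
  src : E → V
  tgt : E → V
  Vs : Finset V

namespace MG

variable {V E : Type} (G : MG V E)

/-- The reversed frame. -/
def rev : MG V E := ⟨G.tgt, G.src, G.Vs⟩

@[simp] theorem rev_src : G.rev.src = G.tgt := rfl
@[simp] theorem rev_tgt : G.rev.tgt = G.src := rfl
@[simp] theorem rev_Vs : G.rev.Vs = G.Vs := rfl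
@[simp] theorem rev_rev : G.rev.rev = G := rfl

/-- Walks as lists of arcs. -/
inductive Walk : V → V → List E → Prop
  | nil (x : V) : Walk x x []
  | cons (e : E) (y : V) (l : List E) : Walk (G.tgt e) y l → Walk (G.src e) y (e :: l)

/-- The vertices of a walk. -/
def verts (x : V) (l : List E) : List V := x :: l.map G.tgt

/-- Reachability inside an arc set. -/
def Reach (F : Finset E) (x y : V) : Prop := ∃ l, G.Walk x y l ∧ ∀ e ∈ l, e ∈ F

/-- All arcs have their ends in the vertex set. -/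
def WF (A : Finset E) : Prop := ∀ e ∈ A, G.src e ∈ G.Vs ∧ G.tgt e ∈ G.Vs

variable {G}

theorem WF.mono {A B : Finset E} (h : G.WF B) (hAB : A ⊆ B) : G.WF A := fun e he => h e (hAB he)

theorem WF.rev {A : Finset E} (h : G.WF A) : G.rev.WF A := fun e he => (h e he).symm

theorem walk_nil_iff {x y : V} : G.Walk x y [] ↔ x = y :=
  ⟨fun h => by cases h; rfl, fun h => h ▸ Walk.nil x⟩

theorem walk_cons_iff {x y : V} {e : E} {l : List E} :
    G.Walk x y (e :: l) ↔ G.src e = x ∧ G.Walk (G.tgt e) y l :=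
  ⟨fun h => by cases h; exact ⟨rfl, by assumption⟩, fun h => h.1 ▸ Walk.cons e y l h.2⟩

theorem walk_append_iff {x y : V} {l₁ l₂ : List E} :
    G.Walk x y (l₁ ++ l₂) ↔ ∃ z, G.Walk x z l₁ ∧ G.Walk z y l₂ := by
  induction l₁ generalizing x with
  | nil => simp [walk_nil_iff]
  | cons e l ih =>
    simp only [List.cons_append, walk_cons_iff, ih]
    constructor
    · rintro ⟨h, z, h1, h2⟩; exact ⟨z, ⟨h, h1⟩, h2⟩
    · rintro ⟨z, ⟨h, h1⟩, h2⟩; exact ⟨h, z, h1, h2⟩

theorem Walk.append {x y z : V} {l₁ l₂ : List E} (h₁ : G.Walk x z l₁) (h₂ : G.Walk z y l₂) :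
    G.Walk x y (l₁ ++ l₂) := walk_append_iff.2 ⟨z, h₁, h₂⟩

theorem Walk.single (e : E) : G.Walk (G.src e) (G.tgt e) [e] := Walk.cons e _ _ (Walk.nil _)

theorem Walk.rev {x y : V} {l : List E} (h : G.Walk x y l) : G.rev.Walk y x l.reverse := by
  induction h with
  | nil x => exact Walk.nil x
  | cons e y l _ ih =>
    rw [List.reverse_cons]
    exact ih.append (Walk.single (G := G.rev) e)

theorem Walk.unique {x y z : V} {l : List E} (h₁ : G.Walk x y l) (h₂ : G.Walk x z l) : y = z := by
  induction h₁ with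
  | nil x => exact walk_nil_iff.1 h₂
  | cons e y l _ ih => exact ih (walk_cons_iff.1 h₂).2

theorem Walk.split_arc {x y : V} {l₁ l₂ : List E} {e : E} (h : G.Walk x y (l₁ ++ e :: l₂)) :
    G.Walk x (G.src e) l₁ ∧ G.Walk (G.tgt e) y l₂ := by
  obtain ⟨z, h1, h2⟩ := walk_append_iff.1 h
  obtain ⟨rfl, h3⟩ := walk_cons_iff.1 h2
  exact ⟨h1, h3⟩

theorem Walk.split_vert {x y u : V} {l : List E} (h : G.Walk x y l) (hu : u ∈ G.verts x l) :
    ∃ l₁ l₂, l = l₁ ++ l₂ ∧ G.Walk x u l₁ ∧ G.Walk u y l₂ := by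
  induction h with
  | nil x =>
    simp only [verts, List.map_nil, List.mem_singleton] at hu
    subst hu
    exact ⟨[], [], rfl, Walk.nil _, Walk.nil _⟩
  | cons e y l hw ih =>
    simp only [verts, List.map_cons, List.mem_cons] at hu
    rcases hu with rfl | hu
    · exact ⟨[], e :: l, rfl, Walk.nil _, Walk.cons e y l hw⟩
    · obtain ⟨l₁, l₂, rfl, h1, h2⟩ := ih (by simpa [verts] using hu)
      exact ⟨e :: l₁, l₂, rfl, Walk.cons e _ _ h1, h2⟩

theorem Walk.end_mem {x y : V} {l : List E} (h : G.Walk x y l) : y ∈ G.verts x l := by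
  induction h with
  | nil x => simp [verts]
  | cons e y l _ ih => simp only [verts, List.map_cons] at ih ⊢; exact List.mem_cons_of_mem _ ih

theorem tgt_mem_verts {x : V} {l : List E} {e : E} (he : e ∈ l) : G.tgt e ∈ G.verts x l :=
  List.mem_cons_of_mem _ (List.mem_map_of_mem he)

theorem Walk.src_mem {x y : V} {l : List E} (h : G.Walk x y l) {e : E} (he : e ∈ l) :
    G.src e ∈ G.verts x l := by
  obtain ⟨l₁, l₂, rfl⟩ := List.append_of_mem he
  have := h.split_arc.1.end_mem
  simp only [verts, List.map_append, List.mem_cons, List.mem_append] at this ⊢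
  tauto

theorem Walk.verts_suffix {x z : V} {l₁ : List E} (h : G.Walk x z l₁) (l₂ : List E) :
    G.verts z l₂ <:+ G.verts x (l₁ ++ l₂) := by
  induction h with
  | nil x => simp
  | cons e y l _ ih =>
    simp only [verts, List.cons_append, List.map_cons] at ih ⊢
    exact ih.trans (List.suffix_cons _ _)

/-- Every walk contains a path. -/
theorem Walk.exists_simple {x y : V} {l : List E} (h : G.Walk x y l) :
    ∃ l', l'.Sublist l ∧ G.Walk x y l' ∧ (G.verts x l').Nodup := by
  induction h with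
  | nil x => exact ⟨[], List.Sublist.refl _, Walk.nil x, by simp [verts]⟩
  | cons e y l _ ih =>
    obtain ⟨l', hs, hw, hn⟩ := ih
    by_cases hm : G.src e ∈ G.verts (G.tgt e) l'
    · obtain ⟨l₁, l₂, rfl, h1, h2⟩ := hw.split_vert hm
      exact ⟨l₂, ((List.sublist_append_right _ _).trans hs).cons _, h2,
        hn.sublist (h1.verts_suffix l₂).sublist⟩
    · exact ⟨e :: l', hs.cons_cons _, Walk.cons e y l' hw, List.nodup_cons.2 ⟨hm, hn⟩⟩

theorem nodup_of_verts {x : V} {l : List E} (h : (G.verts x l).Nodup) : l.Nodup :=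
  List.Nodup.of_map _ (List.nodup_cons.1 h).2

/-- Positions along a path. -/
theorem Walk.exists_pos {x y : V} {l : List E} (h : G.Walk x y l) (hn : (G.verts x l).Nodup) :
    ∃ pos : V → ℕ, pos x = 0 ∧ (∀ e ∈ l, pos (G.tgt e) = pos (G.src e) + 1) ∧
      (∀ u ∈ G.verts x l, ∀ v ∈ G.verts x l, pos u = pos v → u = v) ∧
      (∀ u l₁ l₂, l = l₁ ++ l₂ → G.Walk x u l₁ → pos u = l₁.length) := by
  classical
  have key : ∀ u l₁ l₂, l = l₁ ++ l₂ → G.Walk x u l₁ → (G.verts x l).idxOf u = l₁.length := by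
    rintro u l₁ l₂ rfl h1
    clear h
    induction h1 with
    | nil x => simp [verts]
    | cons e u l hw ih =>
      simp only [verts, List.cons_append, List.map_cons] at hn ih ⊢
      have h2 := List.nodup_cons.1 hn
      have h3 : u ∈ G.tgt e :: List.map G.tgt (l ++ l₂) := by
        have := hw.end_mem
        simp only [verts, List.map_append, List.mem_cons, List.mem_append] at this ⊢
        tauto
      have h4 : G.src e ≠ u := fun h => h2.1 (h ▸ h3)
      rw [List.idxOf_cons_ne _ h4, ih h2.2]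
      simp
  refine ⟨fun v => (G.verts x l).idxOf v, by simp [verts], fun e he => ?_,
    fun u hu v hv huv => (List.idxOf_inj hu).1 huv, key⟩
  obtain ⟨l₁, l₂, rfl⟩ := List.append_of_mem he
  have h1 := h.split_arc.1
  show List.idxOf _ _ = List.idxOf _ _ + 1
  rw [key _ l₁ (e :: l₂) rfl h1, key _ (l₁ ++ [e]) l₂ (by simp) (h1.append (Walk.single e))]
  simp

theorem tgt_inj_of_nodup {x : V} {l : List E} (hn : (G.verts x l).Nodup) {e f : E} (he : e ∈ l)
    (hf : f ∈ l) (h : G.tgt e = G.tgt f) : e = f :=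
  List.inj_on_of_nodup_map (List.nodup_cons.1 hn).2 he hf h

theorem Walk.src_inj {x y : V} {l : List E} (h : G.Walk x y l) (hn : (G.verts x l).Nodup)
    {e f : E} (he : e ∈ l) (hf : f ∈ l) (hef : G.src e = G.src f) : e = f := by
  obtain ⟨pos, -, h1, h2, -⟩ := h.exists_pos hn
  refine tgt_inj_of_nodup hn he hf (h2 _ (tgt_mem_verts he) _ (tgt_mem_verts hf) ?_)
  rw [h1 e he, h1 f hf, hef]

theorem Walk.sum_eq {x y : V} {l : List E} (h : G.Walk x y l) (φ : V → ℤ) :
    (l.map fun e => φ (G.src e) - φ (G.tgt e)).sum = φ x - φ y := by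
  induction h with
  | nil x => simp
  | cons e y l _ ih => simp [ih]

theorem Reach.refl (F : Finset E) (x : V) : G.Reach F x x := ⟨[], Walk.nil x, by simp⟩

theorem Reach.trans {F : Finset E} {x y z : V} (h₁ : G.Reach F x y) (h₂ : G.Reach F y z) :
    G.Reach F x z := by
  obtain ⟨l₁, h1, m1⟩ := h₁
  obtain ⟨l₂, h2, m2⟩ := h₂
  refine ⟨l₁ ++ l₂, h1.append h2, fun e he => ?_⟩
  rcases List.mem_append.1 he with h | h
  exacts [m1 e h, m2 e h]

theorem Reach.single {F : Finset E} {e : E} (he : e ∈ F) : G.Reach F (G.src e) (G.tgt e) :=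
  ⟨[e], Walk.single e, by simpa using he⟩

theorem Reach.mono {F F' : Finset E} {x y : V} (h : G.Reach F x y) (hF : F ⊆ F') :
    G.Reach F' x y := by
  obtain ⟨l, h1, m1⟩ := h
  exact ⟨l, h1, fun e he => hF (m1 e he)⟩

theorem Reach.rev {F : Finset E} {x y : V} (h : G.Reach F x y) : G.rev.Reach F y x := by
  obtain ⟨l, h1, m1⟩ := h
  exact ⟨l.reverse, h1.rev, by simpa using m1⟩

theorem reach_rev_iff {F : Finset E} {x y : V} : G.rev.Reach F y x ↔ G.Reach F x y :=
  ⟨fun h => h.rev, fun h => h.rev⟩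

theorem Walk.reach [DecidableEq E] {x y : V} {l : List E} (h : G.Walk x y l) :
    G.Reach l.toFinset x y := ⟨l, h, by simp⟩

theorem Reach.induction {F : Finset E} {x y : V} (h : G.Reach F x y) (S : V → Prop) (hx : S x)
    (hS : ∀ e ∈ F, S (G.src e) → S (G.tgt e)) : S y := by
  obtain ⟨l, h1, m1⟩ := h
  induction h1 with
  | nil x => exact hx
  | cons e y l _ ih =>
    exact ih (hS e (m1 e (by simp)) hx) fun f hf => m1 f (by simp [hf])

theorem reach_iff_rtg {F : Finset E} {x y : V} :
    G.Reach F x y ↔ Relation.ReflTransGen (fun a b => ∃ e ∈ F, G.src e = a ∧ G.tgt e = b) x y := by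
  constructor
  · intro h
    exact h.induction _ Relation.ReflTransGen.refl fun e he ih => ih.tail ⟨e, he, rfl, rfl⟩
  · intro h
    induction h with
    | refl => exact Reach.refl _ _
    | tail _ h ih =>
      obtain ⟨e, he, rfl, rfl⟩ := h
      exact ih.trans (Reach.single he)

theorem Reach.exists_simple {F : Finset E} {x y : V} (h : G.Reach F x y) :
    ∃ l, G.Walk x y l ∧ (∀ e ∈ l, e ∈ F) ∧ (G.verts x l).Nodup := by
  obtain ⟨l, h1, m1⟩ := h
  obtain ⟨l', hs, hw, hn⟩ := h1.exists_simple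
  exact ⟨l', hw, fun e he => m1 e (hs.subset he), hn⟩

theorem Reach.mem_Vs {F : Finset E} {x y : V} (h : G.Reach F x y) (hF : G.WF F) (hx : x ∈ G.Vs) :
    y ∈ G.Vs := h.induction _ hx fun e he _ => (hF e he).2

variable (G) in
open Classical in
/-- Arcs of `A` leaving `S`. -/
noncomputable def cut (A : Finset E) (S : Set V) : Finset E :=
  A.filter fun e => G.src e ∈ S ∧ G.tgt e ∉ S

theorem mem_cut {A : Finset E} {S : Set V} {e : E} :
    e ∈ G.cut A S ↔ e ∈ A ∧ G.src e ∈ S ∧ G.tgt e ∉ S := by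
  simp [cut]

theorem cut_rev (A : Finset E) (S : Set V) : G.rev.cut A Sᶜ = G.cut A S := by
  ext e; simp [mem_cut]; tauto

theorem cut_mono {A B : Finset E} (h : A ⊆ B) (S : Set V) : G.cut A S ⊆ G.cut B S := by
  intro e he
  rw [mem_cut] at he ⊢
  exact ⟨h he.1, he.2⟩

variable (G) in
/-- Every cut separating `x` from `y` has at least `K` arcs. -/
def Rich (A : Finset E) (K : ℕ) (x y : V) : Prop :=
  ∀ S : Set V, x ∈ S → y ∉ S → K ≤ (G.cut A S).card

theorem Rich.refl (A : Finset E) (K : ℕ) (x : V) : G.Rich A K x x := fun _ h h' => absurd h h'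

theorem Rich.trans {A : Finset E} {K : ℕ} {x y z : V} (h₁ : G.Rich A K x y) (h₂ : G.Rich A K y z) :
    G.Rich A K x z := fun S hx hz => by
  by_cases hy : y ∈ S
  exacts [h₂ S hy hz, h₁ S hx hy]

theorem Rich.mono {A B : Finset E} {K : ℕ} {x y : V} (h : G.Rich A K x y) (hAB : A ⊆ B) :
    G.Rich B K x y := fun S hx hy => (h S hx hy).trans (card_le_card (cut_mono hAB S))

theorem Rich.of_le {A : Finset E} {K K' : ℕ} {x y : V} (h : G.Rich A K x y) (hK : K' ≤ K) :
    G.Rich A K' x y := fun S hx hy => hK.trans (h S hx hy)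

theorem sum_indicator [DecidableEq E] (H : Finset E) (S : Set V) [DecidablePred (· ∈ S)] :
    ∑ e ∈ H, ((if G.src e ∈ S then (1 : ℤ) else 0) - (if G.tgt e ∈ S then 1 else 0)) =
      (G.cut H S).card - (G.cut H Sᶜ).card := by
  have h1 : G.cut H S = H.filter fun e => G.src e ∈ S ∧ G.tgt e ∉ S := by
    ext e; simp [mem_cut]
  have h2 : G.cut H Sᶜ = H.filter fun e => G.src e ∉ S ∧ G.tgt e ∈ S := by
    ext e; simp [mem_cut]
  rw [h1, h2, card_filter, card_filter]
  push_cast
  rw [← sum_sub_distrib]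
  refine sum_congr rfl fun e _ => ?_
  by_cases ha : G.src e ∈ S <;> by_cases hb : G.tgt e ∈ S <;> simp [ha, hb]

variable (G) in
/-- Pairwise arc-disjoint connections for the demands indexed by `I`. -/
def Feas {ι : Type} (A : Finset E) (dem : ι → V × V) (I : Finset ι) : Prop :=
  ∃ F : ι → Finset E, (∀ i ∈ I, F i ⊆ A ∧ G.Reach (F i) (dem i).1 (dem i).2) ∧
    ∀ i ∈ I, ∀ j ∈ I, i ≠ j → Disjoint (F i) (F j)

theorem Feas.mono {ι : Type} {A B : Finset E} {dem : ι → V × V} {I : Finset ι}
    (h : G.Feas A dem I) (hAB : A ⊆ B) : G.Feas B dem I := by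
  obtain ⟨F, h1, h2⟩ := h
  exact ⟨F, fun i hi => ⟨(h1 i hi).1.trans hAB, (h1 i hi).2⟩, h2⟩

/-- Augmenting a flow. -/
theorem exists_flow [DecidableEq V] [DecidableEq E] {A : Finset E} {s t : V} (k : ℕ)
    (h : G.Rich A k s t) :
    ∃ H ⊆ A, ∀ φ : V → ℤ, ∑ e ∈ H, (φ (G.src e) - φ (G.tgt e)) = k * (φ s - φ t) := by
  classical
  induction k with
  | zero => exact ⟨∅, by simp, by simp⟩
  | succ k ih =>
    obtain ⟨H, hHA, hH⟩ := ih (h.of_le (by omega))
    let W : Finset V := insert s (A.image G.src ∪ A.image G.tgt)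
    let P : Finset V → Prop := fun T => s ∈ T ∧ ∀ x ∈ T, ∃ H' ⊆ A,
      (∀ φ : V → ℤ, ∑ e ∈ H', (φ (G.src e) - φ (G.tgt e)) = k * (φ s - φ t) + (φ s - φ x)) ∧
      ∀ e, ¬ (G.src e ∈ T ∧ G.tgt e ∈ T) → (e ∈ H' ↔ e ∈ H)
    have h0 : ({s} : Finset V) ∈ W.powerset.filter P := by
      simp only [mem_filter, mem_powerset, P, W]
      refine ⟨by simp, by simp, fun x hx => ⟨H, hHA, fun φ => ?_, fun _ _ => Iff.rfl⟩⟩
      rw [mem_singleton.1 hx, hH]; ring
    obtain ⟨T, hT, hmax⟩ := exists_max_image (W.powerset.filter P) card ⟨_, h0⟩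
    obtain ⟨hTW, hsT, hT⟩ : T ⊆ W ∧ P T := by simpa using hT
    have grow : ∀ y ∈ W, y ∉ T → (∃ H' ⊆ A,
        (∀ φ : V → ℤ, ∑ e ∈ H', (φ (G.src e) - φ (G.tgt e)) = k * (φ s - φ t) + (φ s - φ y)) ∧
        ∀ e, ¬ (G.src e ∈ insert y T ∧ G.tgt e ∈ insert y T) → (e ∈ H' ↔ e ∈ H)) → False := by
      intro y hyW hy hex
      have : insert y T ∈ W.powerset.filter P := by
        simp only [mem_filter, mem_powerset, P]
        refine ⟨insert_subset hyW hTW, mem_insert_of_mem hsT, fun x hx => ?_⟩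
        rcases mem_insert.1 hx with rfl | hx
        · exact hex
        · obtain ⟨H', h1, h2, h3⟩ := hT x hx
          exact ⟨H', h1, h2, fun e he => h3 e fun h' =>
            he ⟨mem_insert_of_mem h'.1, mem_insert_of_mem h'.2⟩⟩
      have := hmax _ this
      rw [card_insert_of_notMem hy] at this
      omega
    by_cases ht : t ∈ T
    · obtain ⟨H', h1, h2, -⟩ := hT t ht
      exact ⟨H', h1, fun φ => by rw [h2]; push_cast; ring⟩
    exfalso
    have hout : G.cut A (T : Set V) ⊆ G.cut H (T : Set V) := by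
      intro e he
      obtain ⟨heA, h1, h2⟩ := mem_cut.1 he
      refine mem_cut.2 ⟨?_, h1, h2⟩
      by_contra heH
      obtain ⟨H', m1, m2, m3⟩ := hT _ h1
      have heH' : e ∉ H' := fun h' => heH ((m3 e fun h'' => h2 h''.2).1 h')
      refine grow (G.tgt e) (by simp [W]; right; right; exact ⟨e, heA, rfl⟩) h2
        ⟨insert e H', insert_subset heA m1, fun φ => ?_, fun f hf => ?_⟩
      · rw [sum_insert heH', m2]; ring
      · have hfe : f ≠ e := by
          rintro rfl
          exact hf ⟨mem_insert_of_mem h1, mem_insert_self _ _⟩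
        rw [mem_insert, ← m3 f fun h' => hf ⟨mem_insert_of_mem h'.1, mem_insert_of_mem h'.2⟩]
        simp [hfe]
    have hin : G.cut H (T : Set V)ᶜ = ∅ := by
      refine eq_empty_of_forall_notMem fun e he => ?_
      obtain ⟨heH, h1, h2⟩ := mem_cut.1 he
      have h2 : G.tgt e ∈ T := by simpa using h2
      have h1 : G.src e ∉ T := by simpa using h1
      obtain ⟨H', m1, m2, m3⟩ := hT _ h2
      have heH' : e ∈ H' := (m3 e fun h'' => h1 h''.1).2 heH
      refine grow (G.src e) (by simp [W]; right; left; exact ⟨e, hHA heH, rfl⟩) h1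
        ⟨H'.erase e, (erase_subset _ _).trans m1, fun φ => ?_, fun f hf => ?_⟩
      · have := add_sum_erase H' (fun e => φ (G.src e) - φ (G.tgt e)) heH'
        rw [m2] at this
        linarith
      · have hfe : f ≠ e := by
          rintro rfl
          exact hf ⟨mem_insert_self _ _, mem_insert_of_mem h2⟩
        rw [mem_erase, ← m3 f fun h' => hf ⟨mem_insert_of_mem h'.1, mem_insert_of_mem h'.2⟩]
        simp [hfe]
    have h1 := hH fun v => if v ∈ (T : Set V) then 1 else 0
    rw [sum_indicator, hin] at h1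
    have h2 := (h (T : Set V) hsT ht).trans (card_le_card hout)
    simp [hsT, ht] at h1
    omega

/-- Decomposing a flow into walks. -/
theorem exists_walks [DecidableEq V] [DecidableEq E] {s t : V} (k : ℕ) (H : Finset E)
    (hH : ∀ φ : V → ℤ, ∑ e ∈ H, (φ (G.src e) - φ (G.tgt e)) = k * (φ s - φ t)) :
    G.Feas H (fun _ : ℕ => (s, t)) (range k) := by
  classical
  induction k generalizing H with
  | zero => exact ⟨fun _ => ∅, by simp, by simp⟩
  | succ k ih =>
    have hr : G.Reach H s t := by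
      by_contra hr
      let S : Set V := {v | G.Reach H s v}
      have h1 := hH fun v => if v ∈ S then 1 else 0
      have h2 : G.cut H S = ∅ := by
        refine eq_empty_of_forall_notMem fun e he => ?_
        obtain ⟨heH, h1, h2⟩ := mem_cut.1 he
        exact h2 (Reach.trans h1 (Reach.single heH))
      have hs : s ∈ S := Reach.refl _ _
      have ht : t ∉ S := hr
      rw [sum_indicator, h2] at h1
      simp [hs, ht] at h1
      omega
    obtain ⟨l, hw, hl, hn⟩ := hr.exists_simple
    have hsub : l.toFinset ⊆ H := fun e he => hl e (List.mem_toFinset.1 he)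
    obtain ⟨F, h1, h2⟩ := ih (H \ l.toFinset) fun φ => by
      have := sum_sdiff (f := fun e => φ (G.src e) - φ (G.tgt e)) hsub
      rw [hH, List.sum_toFinset _ (nodup_of_verts hn), hw.sum_eq] at this
      push_cast at this
      linarith
    refine ⟨Function.update F k l.toFinset, fun i hi => ?_, fun i hi j hj hij => ?_⟩
    · by_cases hik : i = k
      · subst hik
        simpa using ⟨hsub, hw.reach⟩
      · rw [Function.update_of_ne hik]
        have := h1 i (by simp at hi ⊢; omega)
        exact ⟨this.1.trans sdiff_subset, this.2⟩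
    · have hd : ∀ i ∈ range (k + 1), i ≠ k → Disjoint (F i) l.toFinset := fun i hi hik =>
        Disjoint.mono_left (h1 i (by simp at hi ⊢; omega)).1 sdiff_disjoint
      by_cases hik : i = k
      · subst hik
        rw [Function.update_self, Function.update_of_ne hij.symm]
        exact (hd j hj hij.symm).symm
      · by_cases hjk : j = k
        · subst hjk
          rw [Function.update_self, Function.update_of_ne hik]
          exact hd i hi hik
        · rw [Function.update_of_ne hik, Function.update_of_ne hjk]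
          exact h2 i (by simp at hi ⊢; omega) j (by simp at hj ⊢; omega) hij

/-- Menger's theorem for arc-disjoint paths. -/
theorem menger [DecidableEq V] [DecidableEq E] {A : Finset E} {s t : V} {k : ℕ}
    (h : G.Rich A k s t) : G.Feas A (fun _ : ℕ => (s, t)) (range k) := by
  obtain ⟨H, hHA, hH⟩ := exists_flow k h
  exact (exists_walks k H hH).mono hHA

end MG

end Pool.Agent.P.MP_eb0bd2_lc
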